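import Mathlib

/-! Auxiliary results on automorphic orbits. -/

namespace H307AO
open FreeGroup

/-- words `D` of length `c` such that `s :: D` is reduced -/
def conj_lower_words {Y : Type} [DecidableEq Y] [Fintype Y] :
    ℕ → (Y × Bool) → Finset (List (Y × Bool))
  | 0, _ => {[]}
  | c + 1, s => (Finset.univ.erase (s.1, !s.2)).biUnion
      (fun t => (conj_lower_words c t).image (fun D => t :: D))

theorem conj_lower_card {Y : Type} [DecidableEq Y] [Fintype Y] (c : ℕ) (s : Y × Bool) :
    (conj_lower_words c s).card = (2 * Fintype.card Y - 1) ^ c := by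
  induction c generalizing s with
  | zero => simp [conj_lower_words]
  | succ c ih =>
    rw [conj_lower_words, Finset.card_biUnion]
    · have h : ∀ t ∈ Finset.univ.erase (s.1, !s.2),
          ((conj_lower_words c t).image (fun D => t :: D)).card
            = (2 * Fintype.card Y - 1) ^ c := by
        intro t _
        rw [Finset.card_image_of_injective _ (List.cons_injective), ih]
      rw [Finset.sum_congr rfl h, Finset.sum_const, Finset.card_erase_of_mem (Finset.mem_univ _),
        Finset.card_univ, Fintype.card_prod, Fintype.card_bool, smul_eq_mul, mul_comm _ 2, pow_succ,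
        mul_comm]
    · intro t _ t' _ htt'
      rw [Function.onFun, Finset.disjoint_left]
      intro D hD hD'
      obtain ⟨D1, _, rfl⟩ := Finset.mem_image.1 hD
      obtain ⟨D2, _, h⟩ := Finset.mem_image.1 hD'
      exact htt' (List.cons.inj h).1.symm

theorem conj_lower_spec {Y : Type} [DecidableEq Y] [Fintype Y] (c : ℕ) (s : Y × Bool)
    (D : List (Y × Bool)) (hD : D ∈ conj_lower_words c s) :
    D.length = c ∧ IsReduced (s :: D) := by
  induction c generalizing s D with
  | zero =>
    rw [conj_lower_words, Finset.mem_singleton] at hD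
    subst hD
    exact ⟨rfl, IsReduced.singleton⟩
  | succ c ih =>
    rw [conj_lower_words, Finset.mem_biUnion] at hD
    obtain ⟨t, ht, hD⟩ := hD
    obtain ⟨D1, hD1, rfl⟩ := Finset.mem_image.1 hD
    obtain ⟨h1, h2⟩ := ih t D1 hD1
    refine ⟨by rw [List.length_cons, h1], ?_⟩
    rw [isReduced_cons_cons]
    refine ⟨fun h => ?_, h2⟩
    have hne := Finset.ne_of_mem_erase ht
    by_contra hcon
    apply hne
    refine Prod.ext h.symm ?_
    show t.2 = !s.2
    revert hcon
    cases s.2 <;> cases t.2 <;> simp

theorem conj_lower_red {Y : Type} [DecidableEq Y] (R D : List (Y × Bool)) (s : Y × Bool)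
    (hR : IsReduced R) (hne : R ≠ []) (hD : IsReduced (s :: D))
    (h1 : (R.getLast hne).1 = s.1 → (R.getLast hne).2 = s.2) (h2 : s ≠ R.head hne) :
    IsReduced (invRev (s :: D) ++ R ++ (s :: D)) := by
  have hi : IsReduced (invRev (s :: D)) := by
    apply IsReduced.of_reduce_eq
    rw [reduce_invRev, hD.reduce_eq]
  unfold FreeGroup.IsReduced at *
  rw [List.isChain_append, List.isChain_append]
  refine ⟨⟨hi, hR, ?_⟩, hD, ?_⟩
  · intro x hx y hy
    rw [invRev_cons] at hx
    have hx' : x = (s.1, !s.2) := by
      simp [invRev] at hx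
      exact hx.symm
    have hy' : y = R.head hne := by
      rw [List.head?_eq_some_head hne] at hy
      exact (Option.mem_some_iff.1 hy).symm
    subst hx' hy'
    intro h
    by_contra hcon
    apply h2
    refine Prod.ext h ?_
    revert hcon
    show ¬ ((!s.2) = (R.head hne).2) → _
    cases s.2 <;> cases (R.head hne).2 <;> simp
  · intro x hx y hy
    have hx' : x = R.getLast hne := by
      rw [List.getLast?_append, List.getLast?_eq_some_getLast hne] at hx
      simpa using hx.symm
    have hy' : y = s := by
      simpa using hy.symm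
    subst hx' hy'
    exact h1

theorem conj_lower {Y : Type} [DecidableEq Y] [Fintype Y] (h2 : 2 ≤ Fintype.card Y)
    (R : List (Y × Bool)) (hR : IsCyclicallyReduced R) (hne : R ≠ []) (c : ℕ) :
    {w : FreeGroup Y | (∃ f : FreeGroup Y, w = f * mk R * f⁻¹) ∧
        w.norm = R.length + 2 * (c + 1)}.Finite ∧
    (2 * Fintype.card Y - 1) ^ c ≤
      {w : FreeGroup Y | (∃ f : FreeGroup Y, w = f * mk R * f⁻¹) ∧
        w.norm = R.length + 2 * (c + 1)}.ncard := by
  classical
  set S := {w : FreeGroup Y | (∃ f : FreeGroup Y, w = f * mk R * f⁻¹) ∧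
        w.norm = R.length + 2 * (c + 1)} with hS
  have hfin : S.Finite := by
    have h1 : ({l : List (Y × Bool) | l.length = R.length + 2 * (c + 1)}).Finite :=
      List.finite_length_eq _ _
    refine (h1.preimage (toWord_injective.injOn)).subset ?_
    rintro w ⟨-, hw⟩
    exact hw
  refine ⟨hfin, ?_⟩
  obtain ⟨s, hs1, hs2⟩ : ∃ s : Y × Bool, s ≠ ((R.getLast hne).1, !(R.getLast hne).2) ∧
      s ≠ R.head hne := by
    have hcard : ({((R.getLast hne).1, !(R.getLast hne).2), R.head hne} :
        Finset (Y × Bool)).card < (Finset.univ : Finset (Y × Bool)).card := by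
      refine lt_of_le_of_lt (Finset.card_le_two) ?_
      rw [Finset.card_univ, Fintype.card_prod, Fintype.card_bool]
      omega
    obtain ⟨s, -, hs⟩ := Finset.exists_mem_notMem_of_card_lt_card hcard
    simp only [Finset.mem_insert, Finset.mem_singleton, not_or] at hs
    exact ⟨s, hs.1, hs.2⟩
  have hs1' : (R.getLast hne).1 = s.1 → (R.getLast hne).2 = s.2 := by
    intro h
    by_contra hcon
    apply hs1
    refine Prod.ext h.symm ?_
    show s.2 = !(R.getLast hne).2
    revert hcon
    cases s.2 <;> cases (R.getLast hne).2 <;> simp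
  set g : List (Y × Bool) → FreeGroup Y := fun D => mk (invRev (s :: D) ++ R ++ (s :: D)) with hg
  have hword : ∀ D ∈ conj_lower_words c s,
      (g D).toWord = invRev (s :: D) ++ R ++ (s :: D) := by
    intro D hD
    rw [hg, toWord_mk]
    exact (conj_lower_red R D s hR.1 hne (conj_lower_spec c s D hD).2 hs1' hs2).reduce_eq
  have hinj : Set.InjOn g (conj_lower_words c s) := by
    intro D hD D' hD' h
    have h1 := congrArg toWord h
    rw [hword D hD, hword D' hD'] at h1
    have h2 := List.append_inj_right' h1 (by
      rw [List.length_cons, List.length_cons, (conj_lower_spec c s D hD).1,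
        (conj_lower_spec c s D' hD').1])
    exact (List.cons.inj h2).2
  have hsub : (((conj_lower_words c s).image g : Finset (FreeGroup Y)) : Set (FreeGroup Y)) ⊆ S := by
    intro w hw
    rw [Finset.coe_image] at hw
    obtain ⟨D, hD, rfl⟩ := hw
    refine ⟨⟨(mk (s :: D))⁻¹, ?_⟩, ?_⟩
    · rw [hg, inv_inv, inv_mk, mul_mk, mul_mk]
    · unfold FreeGroup.norm
      rw [hword D hD, List.length_append, List.length_append, invRev_length, List.length_cons,
        (conj_lower_spec c s D hD).1]
      omega
  calc (2 * Fintype.card Y - 1) ^ c = (conj_lower_words c s).card := (conj_lower_card c s).symm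
    _ = ((conj_lower_words c s).image g).card := (Finset.card_image_of_injOn hinj).symm
    _ = (((conj_lower_words c s).image g : Finset (FreeGroup Y)) : Set (FreeGroup Y)).ncard :=
        (Set.ncard_coe_finset _).symm
    _ ≤ S.ncard := Set.ncard_le_ncard hsub hfin

end H307AO
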