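import Mathlib

/-! Auxiliary results on automorphic orbits. -/

namespace H307AO
open Filter Topology

/-- pure real analysis -/
theorem limsup_eq (a : ℕ → ℕ) (b : ℝ) (hb : 1 < b) (A B : ℕ)
    (hup : ∀ n, (a n : ℝ) ≤ A * ((n : ℝ) + 1) ^ B * b ^ n) (m : ℕ)
    (hlow : ∀ c : ℕ, (b ^ 2) ^ c ≤ (a (m + 2 * (c + 1)) : ℝ)) :
    limsup (fun n : ℕ => (a n : ℝ) ^ ((1 : ℝ) / (n : ℝ))) atTop = b := by
  have hb0 : 0 < b := by linarith
  -- upper comparison function
  have hcast : Tendsto (fun n : ℕ => (n : ℝ)) atTop atTop := tendsto_natCast_atTop_atTop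
  have hinv : Tendsto (fun n : ℕ => (1 : ℝ) / (n : ℝ)) atTop (𝓝 0) := by
    simpa using tendsto_const_div_atTop_nhds_zero_nat (1 : ℝ)
  have hA : Tendsto (fun n : ℕ => ((A : ℝ) + 1) ^ ((1 : ℝ) / (n : ℝ))) atTop (𝓝 1) := by
    have h1 : Tendsto (fun n : ℕ => ((A : ℝ) + 1) ^ ((1 : ℝ) / (n : ℝ))) atTop
        (𝓝 (((A : ℝ) + 1) ^ (0 : ℝ))) :=
      (Real.continuousAt_const_rpow (by positivity)).tendsto.comp hinv
    simpa using h1
  have hB : Tendsto (fun n : ℕ => ((n : ℝ) + 1) ^ ((B : ℝ) / (n : ℝ))) atTop (𝓝 1) := by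
    have h1 := tendsto_rpow_div_mul_add (B : ℝ) 1 (-1) (by norm_num)
    have h2 : Tendsto (fun n : ℕ => (n : ℝ) + 1) atTop atTop :=
      tendsto_atTop_add_const_right _ _ hcast
    have h3 := h1.comp h2
    refine h3.congr ?_
    intro n
    simp only [Function.comp_apply]
    congr 2
    ring
  have hG : Tendsto (fun n : ℕ => ((A : ℝ) + 1) ^ ((1 : ℝ) / (n : ℝ)) *
      ((n : ℝ) + 1) ^ ((B : ℝ) / (n : ℝ)) * b) atTop (𝓝 b) := by
    have := (hA.mul hB).mul_const b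
    simpa using this
  have hfG : ∀ᶠ n : ℕ in atTop, (a n : ℝ) ^ ((1 : ℝ) / (n : ℝ)) ≤
      ((A : ℝ) + 1) ^ ((1 : ℝ) / (n : ℝ)) * ((n : ℝ) + 1) ^ ((B : ℝ) / (n : ℝ)) * b := by
    filter_upwards [eventually_ge_atTop 1] with n hn
    have hn0 : (n : ℝ) ≠ 0 := by positivity
    have h1 : (a n : ℝ) ≤ ((A : ℝ) + 1) * ((n : ℝ) + 1) ^ B * b ^ n := by
      refine (hup n).trans ?_
      gcongr
      linarith
    have h2 : (a n : ℝ) ^ ((1 : ℝ) / (n : ℝ)) ≤
        (((A : ℝ) + 1) * ((n : ℝ) + 1) ^ B * b ^ n) ^ ((1 : ℝ) / (n : ℝ)) :=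
      Real.rpow_le_rpow (by positivity) h1 (by positivity)
    refine h2.trans (le_of_eq ?_)
    rw [Real.mul_rpow (by positivity) (by positivity), Real.mul_rpow (by positivity) (by positivity)]
    congr 1
    · congr 1
      rw [← Real.rpow_natCast, ← Real.rpow_mul (by positivity)]
      congr 1
      ring
    · rw [← Real.rpow_natCast, ← Real.rpow_mul hb0.le, mul_one_div_cancel hn0, Real.rpow_one]
  -- lower comparison function
  have hH : Tendsto (fun n : ℕ => b ^ (1 - ((m : ℝ) + 2) * (1 / (n : ℝ)))) atTop (𝓝 b) := by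
    have h1 : Tendsto (fun n : ℕ => 1 - ((m : ℝ) + 2) * (1 / (n : ℝ))) atTop (𝓝 1) := by
      have := (hinv.const_mul ((m : ℝ) + 2)).const_sub 1
      simpa using this
    have h2 : Tendsto (fun n : ℕ => b ^ (1 - ((m : ℝ) + 2) * (1 / (n : ℝ)))) atTop
        (𝓝 (b ^ (1 : ℝ))) :=
      (Real.continuousAt_const_rpow hb0.ne').tendsto.comp h1
    simpa using h2
  have hfH : ∃ᶠ n : ℕ in atTop, b ^ (1 - ((m : ℝ) + 2) * (1 / (n : ℝ))) ≤
      (a n : ℝ) ^ ((1 : ℝ) / (n : ℝ)) := by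
    rw [frequently_atTop]
    intro N
    refine ⟨m + 2 * (N + 1), by omega, ?_⟩
    have hn0 : ((m + 2 * (N + 1) : ℕ) : ℝ) ≠ 0 := by positivity
    have h1 := Real.rpow_le_rpow (z := (1 : ℝ) / ((m + 2 * (N + 1) : ℕ) : ℝ)) (by positivity)
      (hlow N) (by positivity)
    refine le_trans (le_of_eq ?_) h1
    rw [← pow_mul, ← Real.rpow_natCast, ← Real.rpow_mul hb0.le]
    congr 1
    field_simp
    push_cast
    ring
  have hbdd : IsBoundedUnder (· ≤ ·) atTop (fun n : ℕ => (a n : ℝ) ^ ((1 : ℝ) / (n : ℝ))) := by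
    refine ⟨b + 1, ?_⟩
    rw [eventually_map]
    filter_upwards [hfG, hG.eventually (gt_mem_nhds (lt_add_one b))] with n h1 h2
    exact h1.trans h2.le
  have hcob : IsCoboundedUnder (· ≤ ·) atTop (fun n : ℕ => (a n : ℝ) ^ ((1 : ℝ) / (n : ℝ))) := by
    refine Filter.IsBoundedUnder.isCoboundedUnder_le ⟨0, ?_⟩
    rw [eventually_map]
    exact Eventually.of_forall fun n => by positivity
  apply le_antisymm
  · refine le_of_forall_pos_le_add fun ε hε => ?_
    refine limsup_le_of_le hcob ?_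
    filter_upwards [hfG, hG.eventually (gt_mem_nhds (lt_add_of_pos_right b hε))] with n h1 h2
    exact h1.trans h2.le
  · refine le_of_forall_pos_le_add fun ε hε => ?_
    have h1 : b - ε ≤ limsup (fun n : ℕ => (a n : ℝ) ^ ((1 : ℝ) / (n : ℝ))) atTop := by
      refine le_limsup_of_frequently_le ?_ hbdd
      have h2 := hH.eventually (lt_mem_nhds (sub_lt_self b hε))
      refine (hfH.and_eventually h2).mono ?_
      intro n hn
      exact hn.2.le.trans hn.1
    linarith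

end H307AO
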