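import Mathlib

/-! Auxiliary results on automorphic orbits. -/

namespace H307AO
open FreeGroup

set_option linter.unusedSectionVars false

theorem rsub5 {α : Type} {L M : List (α × Bool)} (h : IsReduced L) (h' : M <:+: L) :
    IsReduced M := by
  obtain ⟨A, B, rfl⟩ := h'
  exact (List.IsChain.left_of_append h).right_of_append

section aux
variable {Y : Type} [DecidableEq Y]

theorem aux_eq_of_mk {W W' : List (Y × Bool)} (hW : IsReduced W) (hW' : IsReduced W')
    (h : mk W = mk W') : W = W' := by
  rw [← hW.reduce_eq, ← hW'.reduce_eq]
  exact reduce.sound h

theorem aux_last (a b : Y × Bool) (M : List (Y × Bool)) :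
    (a :: (M ++ [b])).getLast? = some b := by
  rw [← List.cons_append, List.getLast?_concat]

theorem aux_last' {a b x : Y × Bool} {M : List (Y × Bool)}
    (h : x ∈ (a :: (M ++ [b])).getLast?) : b = x := by
  rw [aux_last] at h
  simpa using h

theorem aux_rc_self {L : List (Y × Bool)} (hL : IsCyclicallyReduced L) :
    reduceCyclically L = L := by
  induction L using List.bidirectionalRec with
  | nil => simp
  | singleton x => simp
  | cons_append a M b _ =>
    have h2 := hL.2 b (aux_last a b M) a (by simp)
    rw [reduceCyclically.cons_append, if_neg]
    · simp
    · rintro ⟨h3, h4⟩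
      have := h2 h3
      rw [this] at h4
      simp at h4

theorem aux_mk_inv (s : Y × Bool) : (mk [s])⁻¹ = mk [(s.1, !s.2)] := by
  rw [inv_mk]
  simp [invRev]

theorem aux_step (s : Y × Bool) (L W : List (Y × Bool)) (hL : IsReduced L) (hW : IsReduced W)
    (h : mk W = mk [s] * mk L * (mk [s])⁻¹) : reduceCyclically W ~r reduceCyclically L := by
  have hinv := aux_mk_inv s
  induction L using List.bidirectionalRec with
  | nil =>
    have h1 : mk W = mk [] := by
      rw [h, ← one_eq_mk, mul_one, mul_inv_cancel]
    rw [aux_eq_of_mk hW hL h1]
  | singleton x =>
    by_cases hx : x.1 = s.1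
    · have h1 : mk W = mk [x] := by
        rw [h]
        by_cases h2 : x.2 = s.2
        · have : x = s := Prod.ext hx h2
          rw [this]
          group
        · have h3 : x = (s.1, !s.2) := Prod.ext hx (by
            cases hx2 : x.2 <;> cases hs2 : s.2 <;> simp_all)
          rw [h3, ← hinv]
          group
      rw [aux_eq_of_mk hW hL h1]
    · have h1 : W = s :: ([x] ++ [(s.1, !s.2)]) := by
        apply aux_eq_of_mk hW
        · simp only [List.singleton_append, isReduced_cons_cons]
          exact ⟨fun h' => absurd h'.symm hx, fun h' => absurd h' hx, IsReduced.singleton⟩
        · rw [h, hinv, mul_mk, mul_mk]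
          rfl
      rw [h1, reduceCyclically.cons_append, if_pos (by simp)]
  | cons_append a M b _ =>
    have hMb : IsReduced (M ++ [b]) := rsub5 hL ⟨[a], [], by simp⟩
    have haM : IsReduced (a :: M) := rsub5 hL ⟨[], [b], by simp⟩
    have hM : IsReduced M := rsub5 hL ⟨[a], [b], by simp⟩
    by_cases h1 : a = (s.1, !s.2)
    · by_cases h2 : b = s
      · have h3 : mk W = mk M := by
          have h4 : mk (a :: (M ++ [b])) = mk [a] * mk M * mk [b] := by
            rw [mul_mk, mul_mk]
            simp
          rw [h, h4, h1, h2, ← hinv]
          group
        rw [aux_eq_of_mk hW hM h3, reduceCyclically.cons_append, if_pos]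
        rw [h1, h2]
        simp
      · have h3 : W = (M ++ [b]) ++ [a] := by
          apply aux_eq_of_mk hW
          · unfold FreeGroup.IsReduced at hMb ⊢
            rw [List.isChain_append]
            refine ⟨hMb, by simp, ?_⟩
            intro x hx y hy
            simp at hx hy
            subst hx; subst hy
            intro h5
            rw [h1] at h5 ⊢
            simp only at h5 ⊢
            by_contra h6
            apply h2
            refine Prod.ext h5 ?_
            cases hx2 : b.2 <;> cases hs2 : s.2 <;> simp_all
          · have h4 : mk (a :: (M ++ [b])) = mk [a] * mk (M ++ [b]) := by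
              rw [mul_mk]
              simp
            have h5 : mk ((M ++ [b]) ++ [a]) = mk (M ++ [b]) * mk [a] := by
              rw [mul_mk]
            rw [h, h4, h5, h1, ← hinv]
            group
        have hcL : IsCyclicallyReduced (a :: (M ++ [b])) := by
          refine ⟨hL, ?_⟩
          intro x hx y hy
          have hx' : b = x := aux_last' hx
          have hy' : a = y := by simpa using hy
          subst hx'; subst hy'
          intro h5
          rw [h1] at h5 ⊢
          simp only at h5 ⊢
          by_contra h6
          apply h2
          refine Prod.ext h5 ?_
          cases hx2 : b.2 <;> cases hs2 : s.2 <;> simp_all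
        have hcW : IsCyclicallyReduced W := by
          refine ⟨hW, ?_⟩
          rw [h3]
          intro x hx y hy
          have hx' : a = x := by simpa using hx
          subst hx'
          unfold FreeGroup.IsReduced at hL
          rw [List.isChain_cons] at hL
          refine hL.1 y ?_
          cases M with
          | nil => simpa using hy
          | cons m M' => simpa using hy
        rw [aux_rc_self hcL, aux_rc_self hcW, h3]
        exact List.isRotated_append
    · by_cases h2 : b = s
      · have h3 : W = b :: (a :: M) := by
          apply aux_eq_of_mk hW
          · rw [isReduced_cons_cons]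
            refine ⟨?_, haM⟩
            intro h5
            rw [h2] at h5 ⊢
            by_contra h6
            apply h1
            refine Prod.ext h5.symm ?_
            cases hx2 : a.2 <;> cases hs2 : s.2 <;> simp_all
          · have h4 : mk (a :: (M ++ [b])) = mk (a :: M) * mk [b] := by
              rw [mul_mk]
              simp
            have h5 : mk (b :: (a :: M)) = mk [b] * mk (a :: M) := by
              rw [mul_mk]
              simp
            rw [h, h4, h5, h2]
            group
        have hcL : IsCyclicallyReduced (a :: (M ++ [b])) := by
          refine ⟨hL, ?_⟩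
          intro x hx y hy
          have hx' : b = x := aux_last' hx
          have hy' : a = y := by simpa using hy
          subst hx'; subst hy'
          intro h5
          rw [h2] at h5 ⊢
          by_contra h6
          apply h1
          refine Prod.ext h5.symm ?_
          cases hx2 : a.2 <;> cases hs2 : s.2 <;> simp_all
        have hcW : IsCyclicallyReduced W := by
          refine ⟨hW, ?_⟩
          rw [h3]
          intro x hx y hy
          have hy' : b = y := by simpa using hy
          subst hy'
          unfold FreeGroup.IsReduced at hL
          have hL' : List.IsChain (fun a b : Y × Bool => a.1 = b.1 → a.2 = b.2) ((a :: M) ++ [b]) := hL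
          rw [List.isChain_append] at hL'
          refine hL'.2.2 x ?_ b (by simp)
          rw [List.getLast?_cons_cons] at hx
          exact hx
        rw [aux_rc_self hcL, aux_rc_self hcW, h3]
        have h6 : a :: (M ++ [b]) = (a :: M) ++ [b] := by simp
        rw [h6]
        exact List.isRotated_append (l := [b]) (l' := a :: M)
      · have h3 : W = s :: ((a :: (M ++ [b])) ++ [(s.1, !s.2)]) := by
          apply aux_eq_of_mk hW
          · rw [List.cons_append, isReduced_cons_cons]
            refine ⟨?_, ?_⟩
            · intro h5
              by_contra h6
              apply h1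
              refine Prod.ext h5.symm ?_
              cases hx2 : a.2 <;> cases hs2 : s.2 <;> simp_all
            · have h7 : List.IsChain (fun a b : Y × Bool => a.1 = b.1 → a.2 = b.2)
                  ((a :: (M ++ [b])) ++ [(s.1, !s.2)]) := by
                rw [List.isChain_append]
                refine ⟨hL, by simp, ?_⟩
                intro x hx y hy
                have hx' : b = x := aux_last' hx
                have hy' : (s.1, !s.2) = y := by simpa using hy
                subst hx'; subst hy'
                intro h5
                simp only at h5 ⊢
                by_contra h6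
                apply h2
                refine Prod.ext h5 ?_
                cases hx2 : b.2 <;> cases hs2 : s.2 <;> simp_all
              exact h7
          · rw [h, hinv, mul_mk, mul_mk]
            simp
        rw [h3, reduceCyclically.cons_append (a := s), if_pos (by simp)]

theorem aux_main (F : List (Y × Bool)) : ∀ L W : List (Y × Bool), IsReduced L → IsReduced W →
    mk W = mk F * mk L * (mk F)⁻¹ → reduceCyclically W ~r reduceCyclically L := by
  induction F with
  | nil =>
    intro L W hL hW h
    have h1 : mk W = mk L := by
      rw [h, ← one_eq_mk]
      group
    rw [aux_eq_of_mk hW hL h1]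
  | cons s F ih =>
    intro L W hL hW h
    have hV : mk (mk F * mk L * (mk F)⁻¹).toWord = mk F * mk L * (mk F)⁻¹ := mk_toWord
    have h1 := ih L (mk F * mk L * (mk F)⁻¹).toWord hL isReduced_toWord hV
    have h2 := aux_step s (mk F * mk L * (mk F)⁻¹).toWord W isReduced_toWord hW (by
      rw [hV, h]
      have : mk (s :: F) = mk [s] * mk F := by
        rw [mul_mk]
        simp
      rw [this]
      group)
    exact h2.trans h1

end aux

theorem conj_rotation {Y : Type} [DecidableEq Y] (R R' : List (Y × Bool))
    (h : IsCyclicallyReduced R) (h' : IsCyclicallyReduced R') (f : FreeGroup Y)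
    (e : mk R = f * mk R' * f⁻¹) : ∃ i ≤ R'.length, R = R'.rotate i := by
  have h1 := aux_main f.toWord R' R h'.1 h.1 (by rw [mk_toWord]; exact e)
  rw [aux_rc_self h, aux_rc_self h'] at h1
  obtain ⟨i, hi, hi'⟩ := List.isRotated_iff_mod.1 h1.symm
  exact ⟨i, hi, hi'.symm⟩

end H307AO
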