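import Mathlib
import Pool.Agent.Helper307.PP.Total

/-! Counting tuples. -/

namespace H307AO
open FreeGroup

/-- counting a sphere -/
theorem sphere_count {Y : Type} [DecidableEq Y] [Fintype Y] [Nonempty Y] (k : ℕ) :
    {g : FreeGroup Y | g.norm = k}.Finite ∧
    {g : FreeGroup Y | g.norm = k}.ncard ≤ 2 * Fintype.card Y * (2 * Fintype.card Y - 1) ^ k := by
  classical
  have hsub : {g : FreeGroup Y | g.norm = k} ⊆ ((H307PP.RR (X := Y) k).image mk : Finset (FreeGroup Y)) := by
    intro g hg
    rw [Finset.mem_coe, Finset.mem_image]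
    refine ⟨g.toWord, ?_, mk_toWord⟩
    have h1 : g.toWord.length = k := hg
    rw [← h1]
    exact H307PP.mem_RR isReduced_toWord
  refine ⟨(Finset.finite_toSet _).subset hsub, ?_⟩
  refine (Set.ncard_le_ncard hsub (Finset.finite_toSet _)).trans ?_
  rw [Set.ncard_coe_finset]
  exact Finset.card_image_le.trans (H307PP.card_RR k)

/-- counting tuples -/
theorem tuple_count {X Y : Type} [DecidableEq X] [Fintype X] [DecidableEq Y] [Fintype Y] [Nonempty Y]
    (l : ℕ) : {g : X → FreeGroup Y | ∑ x, (g x).norm ≤ l}.Finite ∧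
    {g : X → FreeGroup Y | ∑ x, (g x).norm ≤ l}.ncard ≤
      ((l + 1) * (2 * Fintype.card Y)) ^ Fintype.card X * (2 * Fintype.card Y - 1) ^ l := by
  classical
  let S : (X → Fin (l + 1)) → Finset (X → FreeGroup Y) := fun a =>
    Fintype.piFinset (fun x => (sphere_count (Y := Y) (a x : ℕ)).1.toFinset)
  let A : Finset (X → Fin (l + 1)) := Finset.univ.filter (fun a => ∑ x, (a x : ℕ) ≤ l)
  have hsub : {g : X → FreeGroup Y | ∑ x, (g x).norm ≤ l} ⊆ (A.biUnion S : Finset _) := by
    intro g hg
    have hg' : ∑ x, (g x).norm ≤ l := hg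
    have hx : ∀ x, (g x).norm < l + 1 := by
      intro x
      have := Finset.single_le_sum (f := fun x => (g x).norm) (fun i _ => Nat.zero_le _)
        (Finset.mem_univ x)
      omega
    rw [Finset.mem_coe, Finset.mem_biUnion]
    refine ⟨fun x => ⟨(g x).norm, hx x⟩, ?_, ?_⟩
    · simp only [A, Finset.mem_filter, Finset.mem_univ, true_and]
      exact hg'
    · simp only [S, Fintype.mem_piFinset, Set.Finite.mem_toFinset]
      intro x
      rfl
  refine ⟨(Finset.finite_toSet _).subset hsub, ?_⟩
  have h1 : {g : X → FreeGroup Y | ∑ x, (g x).norm ≤ l}.ncard ≤ (A.biUnion S).card := by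
    have := Set.ncard_le_ncard hsub (Finset.finite_toSet _)
    rwa [Set.ncard_coe_finset] at this
  have hr : 1 ≤ Fintype.card Y := Fintype.card_pos
  have hr1 : 1 ≤ 2 * Fintype.card Y - 1 := by omega
  have h2 : ∀ a ∈ A, (S a).card ≤
      (2 * Fintype.card Y) ^ Fintype.card X * (2 * Fintype.card Y - 1) ^ l := by
    intro a ha
    simp only [A, Finset.mem_filter, Finset.mem_univ, true_and] at ha
    simp only [S]
    rw [Fintype.card_piFinset]
    calc ∏ x, ((sphere_count (Y := Y) (a x : ℕ)).1.toFinset).card ≤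
          ∏ x, (2 * Fintype.card Y * (2 * Fintype.card Y - 1) ^ (a x : ℕ)) := by
          apply Finset.prod_le_prod' (fun x _ => ?_)
          rw [← Set.ncard_eq_toFinset_card _ (sphere_count (Y := Y) (a x : ℕ)).1]
          exact (sphere_count (Y := Y) (a x : ℕ)).2
      _ = (2 * Fintype.card Y) ^ Fintype.card X *
          (2 * Fintype.card Y - 1) ^ (∑ x, (a x : ℕ)) := by
          rw [Finset.prod_mul_distrib, Finset.prod_const, Finset.prod_pow_eq_pow_sum]
          rfl
      _ ≤ _ := by
          apply Nat.mul_le_mul_left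
          exact Nat.pow_le_pow_right hr1 ha
  have h3 : A.card ≤ (l + 1) ^ Fintype.card X := by
    calc A.card ≤ (Finset.univ : Finset (X → Fin (l + 1))).card := Finset.card_le_univ _
      _ = (l + 1) ^ Fintype.card X := by
        rw [Finset.card_univ, Fintype.card_fun, Fintype.card_fin]
  calc _ ≤ (A.biUnion S).card := h1
    _ ≤ ∑ a ∈ A, (S a).card := Finset.card_biUnion_le
    _ ≤ ∑ a ∈ A, (2 * Fintype.card Y) ^ Fintype.card X * (2 * Fintype.card Y - 1) ^ l :=
        Finset.sum_le_sum h2
    _ = A.card * ((2 * Fintype.card Y) ^ Fintype.card X * (2 * Fintype.card Y - 1) ^ l) := by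
        rw [Finset.sum_const, smul_eq_mul]
    _ ≤ (l + 1) ^ Fintype.card X *
        ((2 * Fintype.card Y) ^ Fintype.card X * (2 * Fintype.card Y - 1) ^ l) :=
        Nat.mul_le_mul_right _ h3
    _ = _ := by
        rw [← mul_assoc, ← mul_pow]

end H307AO
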