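import Mathlib

/-! Auxiliary results on automorphic orbits. -/

namespace H307AO

theorem h400_y {X Z : Type} [Fintype X] [DecidableEq X] [DecidableEq Z] (h : X × Bool → Z)
    (hf : ∀ z, (Finset.univ.filter fun s => h s = z).card ≤ Fintype.card X) (x : X) (g : Z)
    (h1 : h (x, true) = g) (h2 : h (x, false) = g) :
    ∃ y, h (y, true) ≠ g ∧ h (y, false) ≠ g := by
  by_contra hcon
  push Not at hcon
  obtain ⟨f, hf0⟩ : ∃ f : Option X → X × Bool, f = fun o => match o with
    | none => (x, false)
    | some y => if h (y, true) = g then (y, true) else (y, false) := ⟨_, rfl⟩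
  have fn : f none = (x, false) := by rw [hf0]
  have fs1 : ∀ y, h (y, true) = g → f (some y) = (y, true) := by
    intro y hy
    rw [hf0]
    exact if_pos hy
  have fs2 : ∀ y, h (y, true) ≠ g → f (some y) = (y, false) := by
    intro y hy
    rw [hf0]
    exact if_neg hy
  have fst : ∀ y, (f (some y)).1 = y := by
    intro y
    by_cases hy : h (y, true) = g
    · rw [fs1 y hy]
    · rw [fs2 y hy]
  have hmem : ∀ o ∈ (Finset.univ : Finset (Option X)), f o ∈ Finset.univ.filter fun s => h s = g := by
    rintro (_ | y) _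
    · rw [fn, Finset.mem_filter]
      exact ⟨Finset.mem_univ _, h2⟩
    · by_cases hy : h (y, true) = g
      · rw [fs1 y hy, Finset.mem_filter]
        exact ⟨Finset.mem_univ _, hy⟩
      · rw [fs2 y hy, Finset.mem_filter]
        exact ⟨Finset.mem_univ _, hcon y hy⟩
  have hinj : Function.Injective f := by
    rintro (_ | y) (_ | y') he
    · rfl
    · exfalso
      have e1 := congrArg Prod.fst he
      rw [fst, fn] at e1
      have e2 : x = y' := e1
      rw [fn, ← e2, fs1 x h1] at he
      exact absurd (congrArg Prod.snd he) (by simp)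
    · exfalso
      have e1 := congrArg Prod.fst he
      rw [fst, fn] at e1
      have e2 : y = x := e1
      rw [fn, e2, fs1 x h1] at he
      exact absurd (congrArg Prod.snd he) (by simp)
    · have e1 := congrArg Prod.fst he
      rw [fst, fst] at e1
      rw [e1]
  have h3 := Finset.card_le_card_of_injOn f hmem hinj.injOn
  rw [Finset.card_univ, Fintype.card_option] at h3
  have h4 := hf g
  omega

theorem h400_step {X Z : Type} [Fintype X] [DecidableEq X] [DecidableEq Z] (h : X × Bool → Z)
    (hf : ∀ z, (Finset.univ.filter fun s => h s = z).card ≤ Fintype.card X) (s : X × Bool) (x : X) :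
    ∃ a : X × Bool, h (s.1, !s.2) ≠ h a ∧
      (a.1 = x ∨ ∃ b : X × Bool, h (a.1, !a.2) ≠ h b ∧ b.1 = x) := by
  by_cases h1 : h (x, true) = h (s.1, !s.2)
  · by_cases h2 : h (x, false) = h (s.1, !s.2)
    · obtain ⟨y, hy1, hy2⟩ := h400_y h hf x _ h1 h2
      refine ⟨(y, true), fun e => hy1 e.symm, Or.inr ⟨(x, true), ?_, rfl⟩⟩
      intro e
      apply hy2
      rw [← h1]
      exact e
    · exact ⟨(x, false), fun e => h2 e.symm, Or.inl rfl⟩
  · exact ⟨(x, true), fun e => h1 e.symm, Or.inl rfl⟩

theorem h400_pad {X Z : Type} [Fintype X] [DecidableEq X] [DecidableEq Z] (h : X × Bool → Z)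
    (hf : ∀ z, (Finset.univ.filter fun s => h s = z).card ≤ Fintype.card X) (x : X) (m : ℕ) :
    ∀ s : X × Bool, ∃ t : List (X × Bool),
      (s :: t).IsChain (fun a b => h (a.1, !a.2) ≠ h b) ∧ t.length = m := by
  induction m with
  | zero =>
    intro s
    exact ⟨[], List.isChain_singleton _, rfl⟩
  | succ m ih =>
    intro s
    obtain ⟨a, ha, -⟩ := h400_step h hf s x
    obtain ⟨t, ht, hl⟩ := ih a
    refine ⟨a :: t, List.isChain_cons_cons.mpr ⟨ha, ht⟩, ?_⟩
    rw [List.length_cons, hl]

theorem h400_ext {X Z : Type} [Fintype X] [DecidableEq X] [DecidableEq Z] (h : X × Bool → Z)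
    (hf : ∀ z, (Finset.univ.filter fun s => h s = z).card ≤ Fintype.card X) (x0 : X)
    (L : List X) :
    ∀ (m : ℕ) (s : X × Bool), 2 * L.length ≤ m → ∃ t : List (X × Bool),
      (s :: t).IsChain (fun a b => h (a.1, !a.2) ≠ h b) ∧ t.length = m ∧
      ∀ z, L.count z ≤ (t.map Prod.fst).count z := by
  induction L with
  | nil =>
    intro m s _
    obtain ⟨t, h1, h2⟩ := h400_pad h hf x0 m s
    refine ⟨t, h1, h2, fun z => ?_⟩
    rw [List.count_nil]
    exact Nat.zero_le _
  | cons x L ih =>
    intro m s hm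
    rw [List.length_cons] at hm
    obtain ⟨a, ha, hor⟩ := h400_step h hf s x
    rcases hor with hax | ⟨b, hb, hbx⟩
    · obtain ⟨t, h1, h2, h3⟩ := ih (m - 1) a (by omega)
      refine ⟨a :: t, List.isChain_cons_cons.mpr ⟨ha, h1⟩, ?_, fun z => ?_⟩
      · rw [List.length_cons, h2]
        omega
      · rw [List.map_cons, hax, List.count_cons, List.count_cons]
        exact Nat.add_le_add_right (h3 z) _
    · obtain ⟨t, h1, h2, h3⟩ := ih (m - 2) b (by omega)
      refine ⟨a :: b :: t, List.isChain_cons_cons.mpr ⟨ha, List.isChain_cons_cons.mpr ⟨hb, h1⟩⟩,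
        ?_, fun z => ?_⟩
      · rw [List.length_cons, List.length_cons, h2]
        omega
      · rw [List.map_cons, List.map_cons, hbx, List.count_cons, List.count_cons (l := x :: _),
          List.count_cons (l := List.map Prod.fst t)]
        have := h3 z
        omega

theorem legal_path {X Z : Type} [Fintype X] [DecidableEq X] [DecidableEq Z]
    (h2 : 2 ≤ Fintype.card X) (h : X × Bool → Z)
    (hf : ∀ z, (Finset.univ.filter fun s => h s = z).card ≤ Fintype.card X) (q : ℕ) :
    ∃ v : List (X × Bool), v.IsChain (fun a b => h (a.1, !a.2) ≠ h b) ∧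
      v.length = 2 * q * Fintype.card X ∧ ∀ x, q ≤ (v.map Prod.fst).count x := by
  haveI : Nonempty X := Fintype.card_pos_iff.mp (by omega)
  obtain ⟨x0⟩ := ‹Nonempty X›
  obtain ⟨L, hL⟩ : ∃ L : List X, L = (q • (Finset.univ : Finset X).val).toList := ⟨_, rfl⟩
  have hlen : L.length = q * Fintype.card X := by
    rw [hL, Multiset.length_toList, Multiset.card_nsmul]
    rfl
  have hcount : ∀ x, L.count x = q := by
    intro x
    rw [← Multiset.coe_count, hL, Multiset.coe_toList, Multiset.count_nsmul,
      Multiset.count_eq_one_of_mem Finset.univ.nodup (Finset.mem_univ x), mul_one]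
  obtain ⟨t, h1, h3, h4⟩ := h400_ext h hf x0 L (2 * q * Fintype.card X) (x0, true) (by
    rw [hlen, mul_assoc])
  refine ⟨t, h1.tail, h3, fun x => ?_⟩
  have h5 := h4 x
  rwa [hcount] at h5

end H307AO
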