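import Mathlib

/-! Auxiliary results on automorphic orbits. -/

namespace H307AO
open FreeGroup

theorem conj_norm {Y : Type} [DecidableEq Y] (g : FreeGroup Y) (hg : g ≠ 1) (y : Y × Bool) :
    ((mk [y])⁻¹ * g * mk [y]).norm + 2 * (if g.toWord.head? = some y then 1 else 0)
      + 2 * (if (g⁻¹).toWord.head? = some y then 1 else 0) ≤ g.norm + 2 := by
  have hg0 : g = mk g.toWord := mk_toWord.symm
  have hy : (mk [y] : FreeGroup Y).norm ≤ 1 := by
    have := norm_mk_le (L₁ := [y])
    simpa using this
  have hyi : ((mk [y])⁻¹ : FreeGroup Y).norm ≤ 1 := by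
    rw [norm_inv_eq]; exact hy
  have hinv : (mk [(y.1, !y.2)] : FreeGroup Y) = (mk [y])⁻¹ := by
    rw [inv_mk]
    rfl
  have hn : g.norm = g.toWord.length := rfl
  -- last letter
  have hlast : (g⁻¹).toWord.head? = some y → ∃ t, g.toWord = t ++ [(y.1, !y.2)] := by
    intro h
    rw [List.head?_eq_some_iff] at h
    obtain ⟨t, ht⟩ := h
    rw [toWord_inv] at ht
    refine ⟨invRev t, ?_⟩
    have h2 : invRev (invRev g.toWord) = invRev (y :: t) := by rw [ht]
    rw [invRev_invRev] at h2
    rw [h2]
    simp [invRev]
  by_cases h1 : g.toWord.head? = some y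
  · rw [if_pos h1]
    obtain ⟨w1, hw1⟩ := List.head?_eq_some_iff.1 h1
    have hg1 : g = mk [y] * mk w1 := by
      rw [mul_mk, List.singleton_append, ← hw1]
      exact hg0
    by_cases h2 : (g⁻¹).toWord.head? = some y
    · rw [if_pos h2]
      obtain ⟨t, ht⟩ := hlast h2
      have h3 : ∃ w2, w1 = w2 ++ [(y.1, !y.2)] := by
        rw [hw1] at ht
        cases t with
        | nil =>
          exfalso
          simp only [List.nil_append, List.cons.injEq] at ht
          have h4 := congrArg Prod.snd ht.1
          simp at h4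
        | cons a t =>
          simp only [List.cons_append, List.cons.injEq] at ht
          exact ⟨t, ht.2⟩
      obtain ⟨w2, hw2⟩ := h3
      have h5 : (mk [y])⁻¹ * g * mk [y] = mk w2 := by
        rw [hg1, hw2, ← mul_mk, hinv]
        group
      rw [h5, hn, hw1, hw2]
      have := norm_mk_le (L₁ := w2)
      simp only [List.length_cons, List.length_append, List.length_nil]
      omega
    · rw [if_neg h2]
      have h5 : (mk [y])⁻¹ * g * mk [y] = mk w1 * mk [y] := by
        rw [hg1]
        group
      rw [h5, hn, hw1]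
      have h6 := norm_mul_le (mk w1) (mk [y])
      have := norm_mk_le (L₁ := w1)
      simp only [List.length_cons]
      omega
  · rw [if_neg h1]
    by_cases h2 : (g⁻¹).toWord.head? = some y
    · rw [if_pos h2]
      obtain ⟨t, ht⟩ := hlast h2
      have hg1 : g = mk t * (mk [y])⁻¹ := by
        rw [← hinv, mul_mk, ← ht]
        exact hg0
      have h5 : (mk [y])⁻¹ * g * mk [y] = (mk [y])⁻¹ * mk t := by
        rw [hg1]
        group
      rw [h5, hn, ht]
      have h6 := norm_mul_le ((mk [y])⁻¹) (mk t)
      have := norm_mk_le (L₁ := t)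
      simp only [List.length_append, List.length_cons, List.length_nil]
      omega
    · rw [if_neg h2]
      have h6 := norm_mul_le ((mk [y])⁻¹ * g) (mk [y])
      have h7 := norm_mul_le ((mk [y])⁻¹) g
      omega

end H307AO
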