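import Mathlib

/-! Auxiliary results on automorphic orbits. -/

namespace H307AO
open FreeGroup

theorem legal_norm {X Y : Type} [DecidableEq X] [DecidableEq Y]
    (φ : FreeGroup X →* FreeGroup Y) (hφ : Function.Injective φ) (v : List (X × Bool))
    (hv : v.IsChain (fun a b =>
      (φ (mk [(a.1, !a.2)])).toWord.head? ≠ (φ (mk [b])).toWord.head?)) :
    (φ (mk v)).norm = (v.map (fun a => (φ (of a.1)).norm)).sum := by
  let W : X × Bool → List (Y × Bool) := fun a => (φ (mk [a])).toWord
  have hinv : ∀ a : X × Bool, mk [(a.1, !a.2)] = (mk [a])⁻¹ := by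
    intro a
    rw [inv_mk]; rfl
  have hW : ∀ a, W a ≠ [] := by
    intro a h
    have h1 : φ (mk [a]) = 1 := FreeGroup.toWord_eq_nil_iff.1 h
    have h2 : mk [a] = 1 := hφ (by rw [h1, _root_.map_one])
    have h3 : (mk [a]).toWord = [] := by rw [h2]; exact toWord_one
    rw [toWord_mk] at h3
    simp [reduce] at h3
  have hlen : ∀ a, (W a).length = (φ (of a.1)).norm := by
    rintro ⟨x, b⟩
    cases b
    · have h1 : mk [(x, false)] = (of x)⁻¹ := hinv (x, true)
      change (φ (mk [(x, false)])).norm = _
      rw [h1, _root_.map_inv, norm_inv_eq]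
    · rfl
  have hmk : φ (mk v) = mk (v.flatMap W) := by
    clear hv
    induction v with
    | nil => exact _root_.map_one φ
    | cons a v ih =>
      have h1 : mk (a :: v) = mk [a] * mk v := by rw [mul_mk]; rfl
      have h2 : φ (mk [a]) = mk (W a) := mk_toWord.symm
      rw [h1, _root_.map_mul, ih, List.flatMap_cons, ← mul_mk, h2]
  have hinvW : ∀ a : X × Bool, W (a.1, !a.2) = invRev (W a) := by
    intro a
    change (φ (mk [(a.1, !a.2)])).toWord = invRev (φ (mk [a])).toWord
    rw [hinv, _root_.map_inv, toWord_inv]
  have hred : FreeGroup.IsReduced (v.flatMap W) := by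
    rw [FreeGroup.IsReduced, List.flatMap_def, List.isChain_flatten]
    · refine ⟨?_, ?_⟩
      · intro l hl
        obtain ⟨a, -, rfl⟩ := List.mem_map.1 hl
        exact isReduced_toWord
      · rw [List.isChain_map]
        refine hv.imp ?_
        intro a b hab x hx y hy hxy
        by_contra hne
        apply hab
        have h1 : (W (a.1, !a.2)).head? = some (x.1, !x.2) := by
          rw [hinvW, invRev, List.head?_reverse, List.getLast?_map]
          have hx' : (W a).getLast? = some x := hx
          rw [hx']; rfl
        have h2 : (W b).head? = some y := hy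
        change (W (a.1, !a.2)).head? = (W b).head?
        rw [h1, h2]
        congr 1
        refine Prod.ext hxy ?_
        change (!x.2) = y.2
        revert hne
        cases x.2 <;> cases y.2 <;> simp
    · intro h
      obtain ⟨a, _, ha⟩ := List.mem_map.1 h
      exact hW a ha
  rw [hmk]
  change (toWord (mk (v.flatMap W))).length = _
  rw [toWord_mk, hred.reduce_eq, List.length_flatMap]
  simp only [hlen]

end H307AO
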