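import Mathlib
import Pool.Agent.Helper307.PP.Init

/-! Power bound from bounded cancellation. -/

namespace H307AO
open FreeGroup

/-- bounded cancellation -/
theorem bounded_cancellation {X Y : Type} [DecidableEq X] [DecidableEq Y] [Fintype X]
    (φ : FreeGroup X →* FreeGroup Y) (hφ : Function.Injective φ)
    (w1 w2 : List (X × Bool)) (h : IsReduced (w1 ++ w2)) :
    (φ (mk w1)).norm + (φ (mk w2)).norm ≤ (φ (mk (w1 ++ w2))).norm +
      2 * ∑ x, (φ (of x)).norm := by
  rcases isEmpty_or_nonempty Y with hY | hY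
  · have : ∀ g : FreeGroup Y, g.norm = 0 := by
      intro g
      have : g = 1 := Subsingleton.elim _ _
      rw [this, FreeGroup.norm_one]
    simp [this]
  · have : Inhabited Y := Classical.inhabited_of_nonempty hY
    exact H307PP.bounded_cancellation φ hφ w1 w2 h


theorem pb_list {A : Type} (a v b : List A) (j : ℕ) :
    a ++ (List.replicate j (v ++ (b ++ a))).flatten =
      (List.replicate j (a ++ v ++ b)).flatten ++ a := by
  induction j with
  | zero => simp
  | succ j ih =>
    rw [List.replicate_succ', List.flatten_append, ← List.append_assoc, ih,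
      List.replicate_succ', List.flatten_append]
    simp

theorem pb_mk {X : Type} (U : List (X × Bool)) (j : ℕ) :
    mk (List.replicate j U).flatten = (mk U) ^ j := by
  induction j with
  | zero => simp [one_eq_mk]
  | succ j ih =>
    rw [List.replicate_succ', List.flatten_append, pow_succ, ← ih, mul_mk]
    simp

theorem pb_red {X : Type} (U a w : List (X × Bool)) (hU : IsCyclicallyReduced U) (j : ℕ)
    (h : a ++ w = U) : IsReduced ((List.replicate j U).flatten ++ a) := by
  have h1 := (hU.flatten_replicate (j + 1)).isReduced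
  rw [List.replicate_succ', List.flatten_append] at h1
  refine H307PP.redsub h1 ?_
  refine ⟨[], w, ?_⟩
  simp [← h]


theorem power_bound {X Y : Type} [DecidableEq X] [DecidableEq Y] [Fintype X]
    (φ : FreeGroup X →* FreeGroup Y) (hφ : Function.Injective φ)
    (U v : List (X × Bool)) (hU : IsCyclicallyReduced U) (hv : v <:+: U)
    (hL : 6 * ∑ x, (φ (of x)).norm ≤ (φ (mk v)).norm) :
    ∃ K : ℕ, ∀ j : ℕ, 2 * j * ∑ x, (φ (of x)).norm ≤ ((φ (mk U)) ^ j).norm + K := by
  obtain ⟨a, b, rfl⟩ := hv
  obtain ⟨L, hLd⟩ : ∃ L, L = ∑ x, (φ (of x)).norm := ⟨_, rfl⟩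
  have hbc : ∀ w1 w2 : List (X × Bool), IsReduced (w1 ++ w2) →
      (φ (mk w1)).norm + (φ (mk w2)).norm ≤ (φ (mk (w1 ++ w2))).norm + 2 * L := by
    intro w1 w2 h
    rw [hLd]
    exact bounded_cancellation φ hφ w1 w2 h
  rw [← hLd] at hL ⊢
  obtain ⟨Y, hY⟩ : ∃ Y : ℕ → List (X × Bool),
      Y = fun j => (List.replicate j (a ++ v ++ b)).flatten ++ a := ⟨_, rfl⟩
  have hYr : ∀ j, IsReduced (Y j) := by
    intro j
    rw [hY]
    exact pb_red _ a (v ++ b) hU j (by simp)
  have hYs : ∀ j, Y (j + 1) = (Y j ++ v) ++ (b ++ a) := by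
    intro j
    rw [hY]
    simp only
    rw [List.replicate_succ', List.flatten_append]
    simp
  have hstep : ∀ j, (φ (mk (Y j))).norm + 2 * L ≤ (φ (mk (Y (j + 1)))).norm := by
    intro j
    have h1 := hYr (j + 1)
    rw [hYs] at h1
    have h2 := hbc _ _ h1
    have h3 : IsReduced (Y j ++ v) := H307PP.redsub h1 ⟨[], b ++ a, by simp⟩
    have h4 := hbc _ _ h3
    rw [hYs]
    omega
  have hind : ∀ j, 2 * j * L ≤ (φ (mk (Y j))).norm := by
    intro j
    induction j with
    | zero => simp
    | succ j ih =>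
      have := hstep j
      calc 2 * (j + 1) * L = 2 * j * L + 2 * L := by ring
        _ ≤ (φ (mk (Y j))).norm + 2 * L := by omega
        _ ≤ _ := this
  refine ⟨(φ (mk a)).norm, fun j => ?_⟩
  refine (hind j).trans ?_
  have h1 : mk (Y j) = (mk (a ++ v ++ b)) ^ j * mk a := by
    rw [hY, ← pb_mk, mul_mk]
  rw [h1, _root_.map_mul, _root_.map_pow]
  exact norm_mul_le _ _

end H307AO
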