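import Mathlib
import Pool.Agent.Helper307.PP.Init
import Pool.Agent.Helper307.AO.J1
import Pool.Agent.Helper307.AO.J2
import Pool.Agent.Helper307.AO.J3
import Pool.Agent.Helper307.AO.J4

/-!
The main inequality: the cyclic length of the image is at least twice the total length of the
images of the generators (after conjugation).
-/

namespace H307AO
open FreeGroup

variable {X Y : Type} [DecidableEq X] [DecidableEq Y] [Fintype X]

/-- `U` contains all reduced words of length `12 * card`. -/
def Rich (U : List (X × Bool)) : Prop :=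
  IsCyclicallyReduced U ∧ ∀ v : List (X × Bool), IsReduced v → v.length = 12 * Fintype.card X → v <:+: U

/-- total length of the images, after conjugation by `f` -/
def tot (φ : FreeGroup X →* FreeGroup Y) (f : FreeGroup Y) : ℕ := ∑ x, (f⁻¹ * φ (of x) * f).norm

omit [DecidableEq X] in
theorem exists_min (φ : FreeGroup X →* FreeGroup Y) : ∃ f, ∀ f', tot φ f ≤ tot φ f' := by
  have h : (Set.range (tot φ)).Nonempty := ⟨_, 1, rfl⟩
  obtain ⟨f, hf⟩ := Nat.sInf_mem h
  exact ⟨f, fun f' => hf ▸ Nat.sInf_le ⟨f', rfl⟩⟩

theorem main_ineq (h2 : 2 ≤ Fintype.card X) (φ : FreeGroup X →* FreeGroup Y)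
    (hφ : Function.Injective φ) (U : List (X × Bool)) (hU : Rich U) (R : List (Y × Bool))
    (hR : φ (mk U) = mk R) : ∃ f, 2 * tot φ f ≤ R.length := by
  obtain ⟨f, hf⟩ := exists_min φ
  refine ⟨f, ?_⟩
  -- the conjugated homomorphism
  let ψ : FreeGroup X →* FreeGroup Y := (MulAut.conj f⁻¹).toMonoidHom.comp φ
  have hψ : ∀ g, ψ g = f⁻¹ * φ g * f := by
    intro g; simp [ψ, MulAut.conj_apply]
  have hinj : Function.Injective ψ := by
    intro a b hab
    rw [hψ, hψ] at hab
    exact hφ (mul_left_cancel (mul_right_cancel hab))
  have htot : tot φ f = ∑ x, (ψ (of x)).norm := by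
    unfold tot
    exact Finset.sum_congr rfl fun x _ => by rw [hψ]
  have hmin : ∀ y : Y × Bool, ∑ x, (ψ (of x)).norm ≤ ∑ x, ((mk [y])⁻¹ * ψ (of x) * mk [y]).norm := by
    intro y
    rw [← htot]
    refine (hf (f * mk [y])).trans (le_of_eq ?_)
    unfold tot
    refine Finset.sum_congr rfl fun x _ => ?_
    rw [hψ]
    congr 1
    group
  have hne : ∀ x, ψ (of x) ≠ 1 := by
    intro x h
    have : (of x : FreeGroup X) = 1 := hinj (by rw [h, _root_.map_one])
    exact of_ne_one x this
  have hmk : ∀ x : X, (mk [(x, false)] : FreeGroup X) = (of x)⁻¹ := fun x => rfl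
  have hmk' : ∀ x : X, (mk [(x, true)] : FreeGroup X) = of x := fun x => rfl
  set h : X × Bool → Option (Y × Bool) := fun s => (ψ (mk [s])).toWord.head? with hh
  have hsome : ∀ s, h s ≠ none := by
    intro s hs
    rw [hh] at hs
    simp only [List.head?_eq_none_iff, toWord_eq_nil_iff] at hs
    obtain ⟨x, b⟩ := s
    cases b
    · rw [hmk, _root_.map_inv, inv_eq_one] at hs
      exact hne x hs
    · rw [hmk'] at hs
      exact hne x hs
  have hfib : ∀ z, (Finset.univ.filter fun s => h s = z).card ≤ Fintype.card X := by
    intro z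
    cases z with
    | none =>
      have : (Finset.univ.filter fun s => h s = none) = ∅ := by
        ext s; simp [hsome s]
      rw [this]; simp
    | some y =>
      have h1 : ∀ x, ((mk [y])⁻¹ * ψ (of x) * mk [y]).norm
          + 2 * ((if h (x, true) = some y then 1 else 0) + (if h (x, false) = some y then 1 else 0))
          ≤ (ψ (of x)).norm + 2 := by
        intro x
        have := conj_norm (ψ (of x)) (hne x) y
        have e1 : h (x, true) = (ψ (of x)).toWord.head? := rfl
        have e2 : h (x, false) = ((ψ (of x))⁻¹).toWord.head? := by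
          rw [hh]; simp only [hmk, _root_.map_inv]
        rw [e1, e2]
        omega
      have h3 := Finset.sum_le_sum fun x (_ : x ∈ (Finset.univ : Finset X)) => h1 x
      rw [Finset.sum_add_distrib, Finset.sum_add_distrib, ← Finset.mul_sum] at h3
      have h4 : (Finset.univ.filter fun s : X × Bool => h s = some y).card
          = ∑ x : X, ((if h (x, true) = some y then 1 else 0) + (if h (x, false) = some y then 1 else 0)) := by
        rw [Finset.card_filter, Fintype.sum_prod_type]
        refine Finset.sum_congr rfl fun x _ => ?_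
        rw [Fintype.sum_bool]
      rw [← h4] at h3
      have h5 := hmin y
      simp only [Finset.sum_const, Finset.card_univ, smul_eq_mul] at h3
      omega
  obtain ⟨v, hchain, hlen, hcount⟩ := legal_path h2 h hfib 6
  have hvred : IsReduced v := by
    refine hchain.imp ?_
    intro a b hab h1
    by_contra h2
    apply hab
    have : (a.1, !a.2) = b := by
      ext
      · exact h1
      · revert h2; cases a.2 <;> cases b.2 <;> simp
    rw [this]
  have hin : v <:+: U := hU.2 v hvred (by rw [hlen])
  have hnorm := legal_norm ψ hinj v hchain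
  have hsum : ∀ (l : List (X × Bool)) (g : X → ℕ),
      (l.map (fun a => g a.1)).sum = ∑ x, (l.map Prod.fst).count x * g x := by
    intro l g
    induction l with
    | nil => simp
    | cons a l ih =>
      rw [List.map_cons, List.sum_cons, ih, List.map_cons]
      have : ∀ x, (a.1 :: l.map Prod.fst).count x * g x
          = (l.map Prod.fst).count x * g x + (if a.1 = x then g x else 0) := by
        intro x
        rw [List.count_cons, add_mul]
        congr 1
        by_cases hx : a.1 = x <;> simp [hx]
      rw [Finset.sum_congr rfl fun x _ => this x, Finset.sum_add_distrib, Finset.sum_ite_eq]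
      simp [add_comm]
  have hbig : 6 * ∑ x, (ψ (of x)).norm ≤ (ψ (mk v)).norm := by
    rw [hnorm, hsum v (fun x => (ψ (of x)).norm), Finset.mul_sum]
    exact Finset.sum_le_sum fun x _ => Nat.mul_le_mul_right _ (hcount x)
  obtain ⟨K, hK⟩ := power_bound ψ hinj U v hU.1 hin hbig
  rw [← htot] at hK
  have hUψ : ψ (mk U) = f⁻¹ * mk R * f := by rw [hψ, hR]
  have hpow : ∀ j : ℕ, ((ψ (mk U)) ^ j).norm ≤ j * R.length + 2 * f.norm := by
    intro j
    have e : (ψ (mk U)) ^ j = f⁻¹ * (mk R) ^ j * f := by
      have := conj_pow (i := j) (a := f⁻¹) (b := mk R)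
      rw [hUψ]
      simpa using this
    rw [e]
    have h1 : ∀ j : ℕ, ((mk R : FreeGroup Y) ^ j).norm ≤ j * R.length := by
      intro j
      induction j with
      | zero => simp
      | succ j ih =>
        rw [pow_succ]
        refine (FreeGroup.norm_mul_le _ _).trans ?_
        have := norm_mk_le (L₁ := R)
        rw [Nat.succ_mul]
        omega
    refine (FreeGroup.norm_mul_le _ _).trans ?_
    have h3 := FreeGroup.norm_mul_le f⁻¹ ((mk R : FreeGroup Y) ^ j)
    have h4 := h1 j
    rw [norm_inv_eq] at h3
    omega
  by_contra hcon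
  push Not at hcon
  have h6 := hK (K + 2 * f.norm + 1)
  have h7 := hpow (K + 2 * f.norm + 1)
  nlinarith

end H307AO
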