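import Mathlib
import Pool.Agent.Helper307.AO.Main
import Pool.Agent.Helper307.AO.J5
import Pool.Agent.Helper307.AO.J6

/-!
The upper bound for the number of images of a rich word.
-/

namespace H307AO
open FreeGroup

variable {X Y : Type} [DecidableEq X] [DecidableEq Y] [Fintype X] [Fintype Y]

/-- images under injective homomorphisms -/
def Img (u : FreeGroup X) (n : ℕ) : Set (FreeGroup Y) :=
  {w | w.norm = n ∧ ∃ φ : FreeGroup X →* FreeGroup Y, Function.Injective φ ∧ φ u = w}

/-- assembling an element from its data -/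
noncomputable def asm (U : List (X × Bool)) (q : List (Y × Bool) × ((X → FreeGroup Y) × ℕ)) : FreeGroup Y :=
  mk q.1 * mk ((reduceCyclically (FreeGroup.lift q.2.1 (mk U)).toWord).rotate q.2.2) * (mk q.1)⁻¹

/-- the tuples -/
noncomputable def Tup [Nonempty Y] (l : ℕ) : Finset (X → FreeGroup Y) := (tuple_count (X := X) (Y := Y) l).1.toFinset

theorem card_Tup [Nonempty Y] (l : ℕ) : (Tup (X := X) (Y := Y) l).card ≤
    ((l + 1) * (2 * Fintype.card Y)) ^ Fintype.card X * (2 * Fintype.card Y - 1) ^ l := by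
  have h := (tuple_count (X := X) (Y := Y) l).2
  rwa [Set.ncard_eq_toFinset_card _ (tuple_count (X := X) (Y := Y) l).1] at h

theorem mem_Tup [Nonempty Y] (l : ℕ) (g : X → FreeGroup Y) :
    g ∈ Tup (X := X) (Y := Y) l ↔ ∑ x, (g x).norm ≤ l := by
  unfold Tup
  rw [Set.Finite.mem_toFinset]; rfl

theorem img_sub [Nonempty Y] (h2 : 2 ≤ Fintype.card X) (U : List (X × Bool)) (hU : Rich U) (n : ℕ) :
    Img (Y := Y) (mk U) n ⊆ (((Finset.range (n / 2 + 1)).biUnion fun c =>
      ((H307PP.RR (X := Y) c) ×ˢ ((Tup (X := X) (Y := Y) ((n - 2 * c) / 2)) ×ˢ Finset.range (n + 1))).image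
        (asm U) : Finset (FreeGroup Y)) : Set (FreeGroup Y)) := by
  rintro w ⟨hn, φ, hφ, hw⟩
  set C := reduceCyclically.conjugator w.toWord with hC
  set R := reduceCyclically w.toWord with hR
  have hdec : C ++ R ++ invRev C = w.toWord :=
    reduceCyclically.conj_conjugator_reduceCyclically w.toWord
  have hred : IsReduced w.toWord := isReduced_toWord
  have hRc : IsCyclicallyReduced R := reduceCyclically.isCyclicallyReduced hred
  have hCred : IsReduced C := H307PP.redsub hred ⟨[], R ++ invRev C, by rw [← hdec]; simp⟩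
  have hlen : n = 2 * C.length + R.length := by
    rw [← hn, FreeGroup.norm, ← hdec]
    simp [invRev_length]; ring
  have hconj : w = mk C * mk R * (mk C)⁻¹ := by
    rw [← mk_toWord (x := w), ← hdec, ← mul_mk, ← mul_mk, ← inv_mk]
  -- conjugated homomorphism
  let φ' : FreeGroup X →* FreeGroup Y := (MulAut.conj (mk C)⁻¹).toMonoidHom.comp φ
  have hφ' : ∀ g, φ' g = (mk C)⁻¹ * φ g * mk C := by
    intro g; simp [φ', MulAut.conj_apply]
  have hinj : Function.Injective φ' := by
    intro a b hab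
    rw [hφ', hφ'] at hab
    exact hφ (mul_left_cancel (mul_right_cancel hab))
  have hφR : φ' (mk U) = mk R := by
    rw [hφ', hw, hconj]; group
  obtain ⟨f, hf⟩ := main_ineq h2 φ' hinj U hU R hφR
  set g : X → FreeGroup Y := fun x => f⁻¹ * φ' (of x) * f with hg
  have hgsum : ∑ x, (g x).norm ≤ R.length / 2 := by
    have : tot φ' f = ∑ x, (g x).norm := rfl
    omega
  have hlift : ∀ z, FreeGroup.lift g z = f⁻¹ * φ' z * f := by
    intro z
    have : FreeGroup.lift g = (MulAut.conj f⁻¹).toMonoidHom.comp φ' := by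
      ext x
      simp [hg, MulAut.conj_apply]
    rw [this]
    simp [MulAut.conj_apply]
  set z := FreeGroup.lift g (mk U) with hz
  set R2 := reduceCyclically z.toWord with hR2
  set D := reduceCyclically.conjugator z.toWord with hD
  have hz2 : z = mk D * mk R2 * (mk D)⁻¹ := by
    have hd : D ++ R2 ++ invRev D = z.toWord :=
      reduceCyclically.conj_conjugator_reduceCyclically z.toWord
    rw [← mk_toWord (x := z), ← hd, ← mul_mk, ← mul_mk, ← inv_mk]
  have hR2c : IsCyclicallyReduced R2 := reduceCyclically.isCyclicallyReduced isReduced_toWord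
  have hRR : mk R = (f * mk D) * mk R2 * (f * mk D)⁻¹ := by
    have h1 : z = f⁻¹ * mk R * f := by rw [hz, hlift, hφR]
    have h3 : mk R = f * z * f⁻¹ := by rw [h1]; group
    rw [h3, hz2]; group
  obtain ⟨i, hi, hrot⟩ := conj_rotation R R2 hRc hR2c _ hRR
  have hlenR : R.length = R2.length := by rw [hrot, List.length_rotate]
  rw [Finset.mem_coe, Finset.mem_biUnion]
  refine ⟨C.length, Finset.mem_range.2 (by omega), ?_⟩
  rw [Finset.mem_image]
  refine ⟨(C, (g, i)), ?_, ?_⟩
  · refine Finset.mem_product.2 ⟨H307PP.mem_RR hCred, Finset.mem_product.2 ⟨?_, ?_⟩⟩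
    · rw [mem_Tup]
      refine hgsum.trans ?_
      omega
    · rw [Finset.mem_range]
      change i < n + 1
      omega
  · simp only [asm]
    rw [hconj, hrot]

theorem img_finite [Nonempty Y] (h2 : 2 ≤ Fintype.card X) (U : List (X × Bool)) (hU : Rich U) (n : ℕ) :
    (Img (Y := Y) (mk U) n).Finite := (Finset.finite_toSet _).subset (img_sub h2 U hU n)

theorem img_card [Nonempty Y] (h2 : 2 ≤ Fintype.card X) (U : List (X × Bool)) (hU : Rich U) (n : ℕ) :
    (Img (Y := Y) (mk U) n).ncard ≤
      (2 * Fintype.card Y) ^ (Fintype.card X + 1) * (n + 1) ^ (Fintype.card X + 2) *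
        (2 * Fintype.card Y - 1) ^ (n / 2) := by
  set r := Fintype.card Y with hr
  set k := Fintype.card X with hk
  have hr1 : 1 ≤ r := Fintype.card_pos
  refine (Set.ncard_le_ncard (img_sub h2 U hU n) (Finset.finite_toSet _)).trans ?_
  rw [Set.ncard_coe_finset]
  refine Finset.card_biUnion_le.trans ?_
  have hterm : ∀ c ∈ Finset.range (n / 2 + 1),
      (((H307PP.RR (X := Y) c) ×ˢ ((Tup (X := X) (Y := Y) ((n - 2 * c) / 2)) ×ˢ Finset.range (n + 1))).image
        (asm U)).card ≤ (2 * r) ^ (k + 1) * (n + 1) ^ (k + 1) * (2 * r - 1) ^ (n / 2) := by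
    intro c hc
    have hc' : c ≤ n / 2 := by have := Finset.mem_range.1 hc; omega
    refine Finset.card_image_le.trans ?_
    rw [Finset.card_product, Finset.card_product, Finset.card_range]
    set l := (n - 2 * c) / 2 with hl
    have e1 : (H307PP.RR (X := Y) c).card ≤ 2 * r * (2 * r - 1) ^ c := H307PP.card_RR c
    have e2 : (Tup (X := X) (Y := Y) l).card ≤ ((l + 1) * (2 * r)) ^ k * (2 * r - 1) ^ l := card_Tup l
    have e3 : (l + 1) ^ k ≤ (n + 1) ^ k := Nat.pow_le_pow_left (by omega) k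
    have e4 : (2 * r - 1) ^ c * (2 * r - 1) ^ l ≤ (2 * r - 1) ^ (n / 2) := by
      rw [← pow_add]
      exact Nat.pow_le_pow_right (by omega) (by omega)
    calc (H307PP.RR (X := Y) c).card * ((Tup (X := X) (Y := Y) l).card * (n + 1))
        ≤ (2 * r * (2 * r - 1) ^ c) * ((((n + 1) ^ k * (2 * r) ^ k) * (2 * r - 1) ^ l) * (n + 1)) := by
          refine Nat.mul_le_mul e1 (Nat.mul_le_mul_right _ (e2.trans ?_))
          rw [mul_pow]
          exact Nat.mul_le_mul_right _ (Nat.mul_le_mul_right _ e3)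
      _ = (2 * r) ^ (k + 1) * (n + 1) ^ (k + 1) * ((2 * r - 1) ^ c * (2 * r - 1) ^ l) := by ring
      _ ≤ _ := Nat.mul_le_mul_left _ e4
  refine (Finset.sum_le_sum hterm).trans ?_
  rw [Finset.sum_const, Finset.card_range, smul_eq_mul]
  have : n / 2 + 1 ≤ n + 1 := by omega
  calc (n / 2 + 1) * ((2 * r) ^ (k + 1) * (n + 1) ^ (k + 1) * (2 * r - 1) ^ (n / 2))
      ≤ (n + 1) * ((2 * r) ^ (k + 1) * (n + 1) ^ (k + 1) * (2 * r - 1) ^ (n / 2)) :=
        Nat.mul_le_mul_right _ this
    _ = _ := by ring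

end H307AO
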