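import Mathlib
import Pool.Agent.Helper307.AO.Upper
import Pool.Agent.Helper307.AO.J7
import Pool.Agent.Helper307.AO.J8

/-!
Growth rates of orbits: from counting bounds to the exact rate; proper powers.
-/

namespace H307AO
open FreeGroup

/-- The exponential growth rate of a subset of `F_r`. -/
noncomputable def gr {r : ℕ} (S : Set (FreeGroup (Fin r))) : ℝ :=
  Filter.limsup (fun n : ℕ => ({w | w ∈ S ∧ w.norm = n}.ncard : ℝ) ^ ((1 : ℝ) / (n : ℝ))) Filter.atTop

/-- The automorphic orbit of `u`. -/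
def orbit {r : ℕ} (u : FreeGroup (Fin r)) : Set (FreeGroup (Fin r)) :=
  {w | ∃ φ : FreeGroup (Fin r) ≃* FreeGroup (Fin r), φ u = w}

variable {r : ℕ}

theorem sphere_finite [Nonempty (Fin r)] (S : Set (FreeGroup (Fin r))) (n : ℕ) :
    {w | w ∈ S ∧ w.norm = n}.Finite :=
  (sphere_count (Y := Fin r) n).1.subset fun _ h => h.2

theorem orbit_eq {u v : FreeGroup (Fin r)} (h : v ∈ orbit u) : orbit v = orbit u := by
  obtain ⟨φ, rfl⟩ := h
  ext w
  constructor
  · rintro ⟨ψ, rfl⟩; exact ⟨φ.trans ψ, rfl⟩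
  · rintro ⟨ψ, rfl⟩; exact ⟨φ.symm.trans ψ, by simp⟩

theorem growth_of_upper (hr : 2 ≤ r) (u : FreeGroup (Fin r)) (hu : u ≠ 1) (A B : ℕ)
    (hup : ∀ n, {w | w ∈ orbit u ∧ w.norm = n}.ncard ≤ A * (n + 1) ^ B * (2 * r - 1) ^ (n / 2)) :
    gr (orbit u) = Real.sqrt (2 * (r : ℝ) - 1) := by
  have hne : Nonempty (Fin r) := ⟨⟨0, by omega⟩⟩
  set b := Real.sqrt (2 * (r : ℝ) - 1) with hb
  have hr' : (2 : ℝ) ≤ r := by exact_mod_cast hr
  have hb2 : b ^ 2 = 2 * (r : ℝ) - 1 := Real.sq_sqrt (by linarith)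
  have hb1 : 1 < b := by
    rw [hb]
    exact Real.lt_sqrt_of_sq_lt (by linarith)
  have hcast : ((2 * r - 1 : ℕ) : ℝ) = 2 * (r : ℝ) - 1 := by
    rw [Nat.cast_sub (by omega)]; push_cast; ring
  -- the core
  set R := reduceCyclically u.toWord with hR
  set D := reduceCyclically.conjugator u.toWord with hD
  have hdec : D ++ R ++ invRev D = u.toWord :=
    reduceCyclically.conj_conjugator_reduceCyclically u.toWord
  have hu2 : u = mk D * mk R * (mk D)⁻¹ := by
    rw [← mk_toWord (x := u), ← hdec, ← mul_mk, ← mul_mk, ← inv_mk]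
  have hRc : IsCyclicallyReduced R := reduceCyclically.isCyclicallyReduced isReduced_toWord
  have hRne : R ≠ [] := by
    intro h
    apply hu
    rw [hu2, h, ← one_eq_mk]; group
  refine limsup_eq (fun n => {w | w ∈ orbit u ∧ w.norm = n}.ncard) b hb1 A B ?_ R.length ?_
  · intro n
    have h1 : (({w | w ∈ orbit u ∧ w.norm = n}.ncard : ℕ) : ℝ) ≤
        ((A * (n + 1) ^ B * (2 * r - 1) ^ (n / 2) : ℕ) : ℝ) := by exact_mod_cast hup n
    refine h1.trans ?_
    rw [Nat.cast_mul, Nat.cast_pow, hcast, ← hb2, ← pow_mul]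
    have h2 : b ^ (2 * (n / 2)) ≤ b ^ n := pow_le_pow_right₀ hb1.le (by omega)
    have h3 : ((A * (n + 1) ^ B : ℕ) : ℝ) = A * ((n : ℝ) + 1) ^ B := by push_cast; ring
    rw [h3]
    exact mul_le_mul_of_nonneg_left h2 (by positivity)
  · intro c
    obtain ⟨_, h2⟩ := conj_lower (Y := Fin r) (by simpa using hr) R hRc hRne c
    rw [Fintype.card_fin] at h2
    have h3 : {w : FreeGroup (Fin r) | (∃ f : FreeGroup (Fin r), w = f * mk R * f⁻¹) ∧
        w.norm = R.length + 2 * (c + 1)} ⊆ {w | w ∈ orbit u ∧ w.norm = R.length + 2 * (c + 1)} := by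
      rintro w ⟨⟨f, rfl⟩, hw⟩
      refine ⟨⟨MulAut.conj (f * (mk D)⁻¹), ?_⟩, hw⟩
      rw [MulAut.conj_apply, hu2]; group
    have h4 := h2.trans (Set.ncard_le_ncard h3 (sphere_finite _ _))
    rw [hb2, ← hcast]
    exact_mod_cast h4

/-- proper powers -/
theorem pow_upper [Nonempty (Fin r)] (d : ℕ) (hd : 2 ≤ d) (v : FreeGroup (Fin r)) (n : ℕ) :
    {w | w ∈ orbit (v ^ d) ∧ w.norm = n}.ncard ≤ (2 * r) ^ 2 * (n + 1) ^ 2 * (2 * r - 1) ^ (n / 2) := by
  have hr1 : 1 ≤ r := by
    have h := Fintype.card_pos (α := Fin r)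
    rwa [Fintype.card_fin] at h
  set B : Finset (FreeGroup (Fin r)) := (Finset.range (n / 2 + 1)).biUnion fun c =>
    (Finset.range (n / 2 - c + 1)).biUnion fun m =>
      ((H307PP.RR (X := Fin r) c) ×ˢ (H307PP.RR (X := Fin r) m)).image
        fun q => (mk q.1 * mk q.2 * (mk q.1)⁻¹) ^ d with hB
  have hsub : {w | w ∈ orbit (v ^ d) ∧ w.norm = n} ⊆ (B : Set (FreeGroup (Fin r))) := by
    rintro w ⟨⟨φ, hφ⟩, hw⟩
    set g := φ v with hg
    have hgw : g ^ d = w := by rw [hg, ← _root_.map_pow, hφ]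
    set R := reduceCyclically g.toWord with hR
    set D := reduceCyclically.conjugator g.toWord with hD
    have hdec : D ++ R ++ invRev D = g.toWord :=
      reduceCyclically.conj_conjugator_reduceCyclically g.toWord
    have hg2 : g = mk D * mk R * (mk D)⁻¹ := by
      rw [← mk_toWord (x := g), ← hdec, ← mul_mk, ← mul_mk, ← inv_mk]
    have hRred : IsReduced R := H307PP.redsub isReduced_toWord ⟨D, invRev D, hdec⟩
    have hDred : IsReduced D := H307PP.redsub isReduced_toWord ⟨[], R ++ invRev D, by rw [← hdec]; simp⟩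
    have hlen : n = 2 * D.length + d * R.length := by
      rw [← hw, ← hgw, FreeGroup.norm, toWord_pow,
        reduceCyclically.reduce_flatten_replicate isReduced_toWord, if_neg (by omega)]
      simp [invRev_length, ← hR, ← hD]; ring
    have hle : D.length + R.length ≤ n / 2 := by
      have : 2 * R.length ≤ d * R.length := Nat.mul_le_mul_right _ hd
      omega
    rw [Finset.mem_coe, hB, Finset.mem_biUnion]
    refine ⟨D.length, Finset.mem_range.2 (by omega), ?_⟩
    rw [Finset.mem_biUnion]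
    refine ⟨R.length, Finset.mem_range.2 (by omega), ?_⟩
    rw [Finset.mem_image]
    refine ⟨(D, R), Finset.mem_product.2 ⟨H307PP.mem_RR hDred, H307PP.mem_RR hRred⟩, ?_⟩
    simp only
    rw [← hg2, hgw]
  refine (Set.ncard_le_ncard hsub (Finset.finite_toSet _)).trans ?_
  rw [Set.ncard_coe_finset, hB]
  refine Finset.card_biUnion_le.trans ?_
  have h1 : ∀ c ∈ Finset.range (n / 2 + 1), ((Finset.range (n / 2 - c + 1)).biUnion fun m =>
      ((H307PP.RR (X := Fin r) c) ×ˢ (H307PP.RR (X := Fin r) m)).image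
        fun q => (mk q.1 * mk q.2 * (mk q.1)⁻¹) ^ d).card ≤ (n + 1) * ((2 * r) ^ 2 * (2 * r - 1) ^ (n / 2)) := by
    intro c hc
    have hc' : c ≤ n / 2 := by have := Finset.mem_range.1 hc; omega
    refine Finset.card_biUnion_le.trans ?_
    have h2 : ∀ m ∈ Finset.range (n / 2 - c + 1),
        (((H307PP.RR (X := Fin r) c) ×ˢ (H307PP.RR (X := Fin r) m)).image
          fun q => (mk q.1 * mk q.2 * (mk q.1)⁻¹) ^ d).card ≤ (2 * r) ^ 2 * (2 * r - 1) ^ (n / 2) := by
      intro m hm
      have hm' : m ≤ n / 2 - c := by have := Finset.mem_range.1 hm; omega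
      refine Finset.card_image_le.trans ?_
      rw [Finset.card_product]
      have e1 := H307PP.card_RR (X := Fin r) c
      have e2 := H307PP.card_RR (X := Fin r) m
      rw [Fintype.card_fin] at e1 e2
      calc _ ≤ (2 * r * (2 * r - 1) ^ c) * (2 * r * (2 * r - 1) ^ m) := Nat.mul_le_mul e1 e2
        _ = (2 * r) ^ 2 * (2 * r - 1) ^ (c + m) := by ring
        _ ≤ _ := Nat.mul_le_mul_left _ (Nat.pow_le_pow_right (by omega) (by omega))
    refine (Finset.sum_le_sum h2).trans ?_
    rw [Finset.sum_const, Finset.card_range, smul_eq_mul]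
    exact Nat.mul_le_mul_right _ (by omega)
  refine (Finset.sum_le_sum h1).trans ?_
  rw [Finset.sum_const, Finset.card_range, smul_eq_mul]
  calc (n / 2 + 1) * ((n + 1) * ((2 * r) ^ 2 * (2 * r - 1) ^ (n / 2)))
      ≤ (n + 1) * ((n + 1) * ((2 * r) ^ 2 * (2 * r - 1) ^ (n / 2))) := Nat.mul_le_mul_right _ (by omega)
    _ = _ := by ring

/-- rich words in a free factor -/
theorem rich_growth (k : ℕ) (hk : 2 ≤ k) (hkr : k ≤ r) (j : Fin k ↪ Fin r)
    (U : List (Fin k × Bool)) (hU : Rich U) (u : FreeGroup (Fin r))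
    (hu : FreeGroup.map j (mk U) ∈ orbit u) :
    gr (orbit u) = Real.sqrt (2 * (r : ℝ) - 1) := by
  have hr : 2 ≤ r := hk.trans hkr
  have hne : Nonempty (Fin r) := ⟨⟨0, by omega⟩⟩
  rw [← orbit_eq hu]
  have hU1 : mk U ≠ 1 := by
    intro h
    have h1 : U = [] := by
      have h2 : (mk U).toWord = U := by rw [toWord_mk, hU.1.isReduced.reduce_eq]
      rw [← h2, h, toWord_one]
    have hlen : (List.replicate (12 * k) ((⟨0, by omega⟩ : Fin k), true)) <:+: U := by
      refine hU.2 _ ?_ (by simp)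
      refine List.isChain_replicate_of_rel _ fun _ => rfl
    rw [h1, List.infix_nil] at hlen
    have := congrArg List.length hlen
    simp at this
    omega
  have hinj : Function.Injective (FreeGroup.map j) := FreeGroup.map_injective j.injective
  refine growth_of_upper hr _ ?_ ((2 * r) ^ (k + 1)) (k + 2) ?_
  · intro h
    exact hU1 (hinj (by rw [h, _root_.map_one]))
  · intro n
    have hsub : {w | w ∈ orbit (FreeGroup.map j (mk U)) ∧ w.norm = n} ⊆ Img (Y := Fin r) (mk U) n := by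
      rintro w ⟨⟨φ, hφ⟩, hw⟩
      refine ⟨hw, φ.toMonoidHom.comp (FreeGroup.map j), ?_, ?_⟩
      · exact φ.injective.comp hinj
      · simpa using hφ
    refine (Set.ncard_le_ncard hsub (img_finite (by simpa using hk) U hU n)).trans ?_
    have := img_card (X := Fin k) (Y := Fin r) (by simpa using hk) U hU n
    simpa using this

end H307AO
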