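import Mathlib
import Pool.Agent.Helper307.PP.Total

/-!
Counting elements whose cyclically reduced core misses some reduced word of a given length.
-/

set_option linter.unusedSectionVars false

namespace H307AO
open FreeGroup H307PP

variable {X : Type} [DecidableEq X] [Fintype X]

theorem exists_before2 (h2 : 2 ≤ Fintype.card X) (a : X × Bool) (U : List (X × Bool))
    (hU : IsReduced U) : ∃ z, IsReduced (a :: z :: U) := by
  set c := U.head?.getD a with hc
  have : ∃ z : X × Bool, z ≠ (a.1, !a.2) ∧ z ≠ (c.1, !c.2) := by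
    by_contra hno
    push Not at hno
    have hsub : (Finset.univ : Finset (X × Bool)) ⊆ {(a.1, !a.2), (c.1, !c.2)} := by
      intro z _
      by_cases hz : z = (a.1, !a.2)
      · simp [hz]
      · simp [hno z hz]
    have h1 := Finset.card_le_card hsub
    have h3 := Finset.card_le_two (a := (a.1, !a.2)) (b := (c.1, !c.2))
    rw [Finset.card_univ, Fintype.card_prod, Fintype.card_bool] at h1
    omega
  obtain ⟨z, hz1, hz2⟩ := this
  refine ⟨z, isReduced_cons_cons.2 ⟨?_, ?_⟩⟩
  · intro h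
    by_contra h4
    apply hz1
    ext
    · exact h.symm
    · revert h4; cases a.2 <;> cases z.2 <;> simp
  · cases U with
    | nil => exact IsReduced.singleton
    | cons b U =>
      have hcb : c = b := by simp [hc]
      refine isReduced_cons_cons.2 ⟨?_, hU⟩
      intro h
      by_contra h4
      apply hz2
      rw [hcb]
      ext
      · exact h
      · revert h4; cases b.2 <;> cases z.2 <;> simp

theorem card_Av2 (h2 : 2 ≤ Fintype.card X) (U : List (X × Bool)) (hU : IsReduced U) (q t : ℕ) :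
    ∀ a : X × Bool, (Av U ((U.length + 1) * q + t) a).card ≤
      ((2 * Fintype.card X - 1) ^ (U.length + 1) - 1) ^ q * (2 * Fintype.card X - 1) ^ t := by
  induction q with
  | zero =>
    intro a
    simp only [mul_zero, zero_add, pow_zero, one_mul]
    exact (Finset.card_le_card (Finset.filter_subset _ _)).trans (card_Rw t a)
  | succ q ih =>
    intro a
    obtain ⟨z, hz⟩ := exists_before2 h2 a U hU
    set K := U.length + 1 with hK
    have hmemz : (z :: U) ∈ Rw K a := (mem_Rw K a _).2 ⟨by simp [hK], hz⟩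
    have hsub : Av U (K * (q + 1) + t) a ⊆ ((Rw K a).erase (z :: U)).biUnion
        fun w1 => (Av U (K * q + t) (w1.getLast?.getD a)).image (w1 ++ ·) := by
      intro w hw
      obtain ⟨⟨hlen, hred⟩, hav⟩ := (mem_Av _ _ _ _).1 hw
      have hsplit : w = w.take K ++ w.drop K := (List.take_append_drop K w).symm
      have hlen' : w.length = K + (K * q + t) := by rw [hlen]; ring
      rw [hsplit] at hred
      obtain ⟨hr1, hr2⟩ := isReduced_split hred
      rw [Finset.mem_biUnion]
      refine ⟨w.take K, ?_, ?_⟩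
      · refine Finset.mem_erase.2 ⟨?_, (mem_Rw K a _).2 ⟨by rw [List.length_take]; omega, hr1⟩⟩
        intro h
        apply hav
        rw [hsplit, h]
        exact ⟨[z], w.drop K, by simp⟩
      · rw [Finset.mem_image]
        refine ⟨w.drop K, (mem_Av _ _ _ _).2 ⟨⟨by rw [List.length_drop]; omega, hr2⟩, ?_⟩, hsplit.symm⟩
        intro h
        exact hav (h.trans (List.drop_suffix K w).isInfix)
    refine (Finset.card_le_card hsub).trans ?_
    refine Finset.card_biUnion_le.trans ?_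
    have hgen : ∀ A B C : ℕ, A * (B * C) = B * A * C := fun A B C => by ring
    calc ∑ w1 ∈ (Rw K a).erase (z :: U), ((Av U (K * q + t) (w1.getLast?.getD a)).image (w1 ++ ·)).card
        ≤ ∑ w1 ∈ (Rw K a).erase (z :: U),
          ((2 * Fintype.card X - 1) ^ K - 1) ^ q * (2 * Fintype.card X - 1) ^ t :=
          Finset.sum_le_sum fun w1 _ => Finset.card_image_le.trans (ih _)
      _ ≤ ((2 * Fintype.card X - 1) ^ K - 1) ^ (q + 1) * (2 * Fintype.card X - 1) ^ t := by
          rw [Finset.sum_const, smul_eq_mul, Finset.card_erase_of_mem hmemz, pow_succ]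
          have := card_Rw K a
          have h1 : (Rw K a).card - 1 ≤ (2 * Fintype.card X - 1) ^ K - 1 := by omega
          calc _ ≤ ((2 * Fintype.card X - 1) ^ K - 1) *
                (((2 * Fintype.card X - 1) ^ K - 1) ^ q * (2 * Fintype.card X - 1) ^ t) :=
                Nat.mul_le_mul_right _ h1
            _ = _ := hgen _ _ _

theorem card_AA2 (h2 : 2 ≤ Fintype.card X) (U : List (X × Bool)) (hU : IsReduced U) (k : ℕ) :
    (AA U k).card ≤ 2 * Fintype.card X *
      (((2 * Fintype.card X - 1) ^ (U.length + 1) - 1) ^ (k / (U.length + 1)) *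
        (2 * Fintype.card X - 1) ^ (k % (U.length + 1))) := by
  unfold AA
  refine Finset.card_biUnion_le.trans ?_
  calc _ ≤ ∑ _a : X × Bool, (((2 * Fintype.card X - 1) ^ (U.length + 1) - 1) ^ (k / (U.length + 1)) *
        (2 * Fintype.card X - 1) ^ (k % (U.length + 1))) := by
        refine Finset.sum_le_sum fun a _ => ?_
        have := card_Av2 h2 U hU (k / (U.length + 1)) (k % (U.length + 1)) a
        rwa [Nat.div_add_mod] at this
    _ = _ := by
        rw [Finset.sum_const, Finset.card_univ, Fintype.card_prod, Fintype.card_bool, smul_eq_mul]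
        ring

/-- the real form of the bound -/
theorem card_AA3 (h2 : 2 ≤ Fintype.card X) (N : ℕ) (ρ : ℝ) (hρ1 : 1 ≤ ρ)
    (hρ : ρ ^ (N + 1) = (2 * (Fintype.card X : ℝ) - 1) ^ (N + 1) - 1)
    (U : List (X × Bool)) (hU : IsReduced U) (hN : U.length = N) (k : ℕ) :
    ((AA U k).card : ℝ) ≤ 2 * Fintype.card X * (2 * (Fintype.card X : ℝ) - 1) ^ (N + 1) * ρ ^ k := by
  have h := card_AA2 h2 U hU k
  rw [hN] at h
  set c := Fintype.card X with hc
  have hc2 : (2 : ℝ) ≤ c := by exact_mod_cast h2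
  have hq1 : (1 : ℝ) ≤ 2 * (c : ℝ) - 1 := by linarith
  have hcast : ((2 * c - 1 : ℕ) : ℝ) = 2 * (c : ℝ) - 1 := by
    rw [Nat.cast_sub (by omega)]; push_cast; ring
  have hpow1 : 1 ≤ (2 * c - 1) ^ (N + 1) := Nat.one_le_pow _ _ (by omega)
  have h' : ((AA U k).card : ℝ) ≤ ((2 * c * (((2 * c - 1) ^ (N + 1) - 1) ^ (k / (N + 1)) *
        (2 * c - 1) ^ (k % (N + 1))) : ℕ) : ℝ) := by exact_mod_cast h
  refine h'.trans ?_
  have e1 : (((2 * c * (((2 * c - 1) ^ (N + 1) - 1) ^ (k / (N + 1)) *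
        (2 * c - 1) ^ (k % (N + 1))) : ℕ) : ℝ)) =
      2 * c * ((ρ ^ (N + 1)) ^ (k / (N + 1)) * (2 * (c : ℝ) - 1) ^ (k % (N + 1))) := by
    rw [hρ, Nat.cast_mul, Nat.cast_mul, Nat.cast_mul, Nat.cast_pow, Nat.cast_pow, Nat.cast_sub hpow1,
      Nat.cast_pow, hcast]
    push_cast
    ring
  rw [e1, ← pow_mul]
  have e2 : ρ ^ ((N + 1) * (k / (N + 1))) ≤ ρ ^ k :=
    pow_le_pow_right₀ hρ1 (Nat.mul_div_le _ _)
  have e3 : (2 * (c : ℝ) - 1) ^ (k % (N + 1)) ≤ (2 * (c : ℝ) - 1) ^ (N + 1) :=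
    pow_le_pow_right₀ hq1 (Nat.mod_lt _ (Nat.succ_pos _)).le
  have hρ0 : 0 ≤ ρ := by linarith
  calc 2 * (c : ℝ) * (ρ ^ ((N + 1) * (k / (N + 1))) * (2 * (c : ℝ) - 1) ^ (k % (N + 1)))
      ≤ 2 * (c : ℝ) * (ρ ^ k * (2 * (c : ℝ) - 1) ^ (N + 1)) := by
        refine mul_le_mul_of_nonneg_left ?_ (by positivity)
        exact mul_le_mul e2 e3 (by positivity) (by positivity)
    _ = _ := by ring

/-- reduced words of length N -/
noncomputable def Vs (N : ℕ) : Finset (List (X × Bool)) :=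
  open Classical in (RR (X := X) N).filter fun V => IsReduced V ∧ V.length = N

theorem mem_Vs {N : ℕ} {V : List (X × Bool)} :
    V ∈ Vs (X := X) N ↔ V ∈ RR (X := X) N ∧ IsReduced V ∧ V.length = N := by
  classical
  unfold Vs
  rw [Finset.mem_filter]

theorem card_Vs (N : ℕ) : (Vs (X := X) N).card ≤ (RR (X := X) N).card := by
  refine Finset.card_le_card fun V hV => (mem_Vs.1 hV).1

/-- conjugate of the second by the first -/
def cj (p : List (X × Bool) × List (X × Bool)) : FreeGroup X := mk p.1 * mk p.2 * (mk p.1)⁻¹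

theorem generic_count (h2 : 2 ≤ Fintype.card X) (N : ℕ) :
    ∃ C ρ : ℝ, 0 < ρ ∧ ρ < 2 * (Fintype.card X : ℝ) - 1 ∧ ∀ n : ℕ,
      {u : FreeGroup X | u.norm = n ∧ ∃ v : List (X × Bool), IsReduced v ∧ v.length = N ∧
        ¬ v <:+: reduceCyclically u.toWord}.Finite ∧
      ({u : FreeGroup X | u.norm = n ∧ ∃ v : List (X × Bool), IsReduced v ∧ v.length = N ∧
        ¬ v <:+: reduceCyclically u.toWord}.ncard : ℝ) ≤ C * ρ ^ n := by
  have hne : Nonempty X := Fintype.card_pos_iff.1 (by omega)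
  set c := Fintype.card X with hc
  have hc2 : (2 : ℝ) ≤ c := by exact_mod_cast h2
  set q : ℝ := 2 * (c : ℝ) - 1 with hq
  have hq3 : 3 ≤ q := by linarith
  have hK : (N + 1) ≠ 0 := Nat.succ_ne_zero N
  have hqK : 3 ≤ q ^ (N + 1) := by
    calc (3 : ℝ) ≤ q := hq3
      _ = q ^ 1 := (pow_one q).symm
      _ ≤ q ^ (N + 1) := pow_le_pow_right₀ (by linarith) (by omega)
  set ρ : ℝ := (q ^ (N + 1) - 1) ^ ((1 : ℝ) / ((N + 1 : ℕ) : ℝ)) with hρdef
  have hρ : ρ ^ (N + 1) = q ^ (N + 1) - 1 := by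
    rw [hρdef, ← Real.rpow_natCast, ← Real.rpow_mul (by linarith), one_div_mul_cancel (by positivity),
      Real.rpow_one]
  have hρ0 : 0 ≤ ρ := Real.rpow_nonneg (by linarith) _
  have hρ1 : 1 ≤ ρ := by
    by_contra hlt
    push Not at hlt
    have := pow_lt_one₀ hρ0 hlt hK
    rw [hρ] at this
    linarith
  have hρq : ρ < q := by
    by_contra hge
    push Not at hge
    have := pow_le_pow_left₀ (by linarith : (0 : ℝ) ≤ q) hge (N + 1)
    rw [hρ] at this
    linarith
  have hqρ : q ≤ ρ ^ 2 := by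
    by_contra hlt
    push Not at hlt
    have h1 := pow_lt_pow_left₀ hlt (by positivity) hK
    rw [← pow_mul, mul_comm 2 (N + 1), pow_mul, hρ] at h1
    nlinarith
  -- the covering set
  let B : ℕ → Finset (FreeGroup X) := fun n => (Finset.range (n / 2 + 1)).biUnion fun d =>
    (Vs (X := X) N).biUnion fun V =>
      ((RR (X := X) d) ×ˢ (AA V (n - 2 * d))).image cj
  have hsub : ∀ n, {u : FreeGroup X | u.norm = n ∧ ∃ v : List (X × Bool), IsReduced v ∧ v.length = N ∧
        ¬ v <:+: reduceCyclically u.toWord} ⊆ (B n : Set (FreeGroup X)) := by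
    rintro n u ⟨hn, V, hV, hVN, hav⟩
    set R := reduceCyclically u.toWord with hR
    set D := reduceCyclically.conjugator u.toWord with hD
    have hdec : D ++ R ++ invRev D = u.toWord :=
      reduceCyclically.conj_conjugator_reduceCyclically u.toWord
    have hu2 : u = mk D * mk R * (mk D)⁻¹ := by
      rw [← mk_toWord (x := u), ← hdec, ← mul_mk, ← mul_mk, ← inv_mk]
    have hRred : IsReduced R := redsub isReduced_toWord ⟨D, invRev D, hdec⟩
    have hDred : IsReduced D := redsub isReduced_toWord ⟨[], R ++ invRev D, by rw [← hdec]; simp⟩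
    have hlen : n = 2 * D.length + R.length := by
      rw [← hn, FreeGroup.norm, ← hdec]
      simp [invRev_length]; ring
    rw [Finset.mem_coe, Finset.mem_biUnion]
    refine ⟨D.length, Finset.mem_range.2 (by omega), ?_⟩
    rw [Finset.mem_biUnion]
    refine ⟨V, ?_, ?_⟩
    · refine mem_Vs.2 ⟨?_, hV, hVN⟩
      have := mem_RR hV
      rwa [hVN] at this
    · rw [Finset.mem_image]
      refine ⟨(D, R), Finset.mem_product.2 ⟨mem_RR hDred, ?_⟩, hu2.symm⟩
      have : n - 2 * D.length = R.length := by omega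
      rw [this]
      exact mem_AA hRred hav
  set M : ℝ := (2 * c * q ^ N) * (2 * c) * (2 * c * q ^ (N + 1)) with hM
  have hM0 : 0 ≤ M := by positivity
  have hcast : ((2 * c - 1 : ℕ) : ℝ) = q := by
    rw [Nat.cast_sub (by omega)]; push_cast; ring
  have hRRc : ∀ k, ((RR (X := X) k).card : ℝ) ≤ 2 * c * q ^ k := by
    intro k
    have h := card_RR (X := X) k
    rw [← hc] at h
    have h' : ((RR (X := X) k).card : ℝ) ≤ ((2 * c * (2 * c - 1) ^ k : ℕ) : ℝ) := by exact_mod_cast h
    rw [Nat.cast_mul, Nat.cast_pow, hcast] at h'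
    push_cast at h'
    exact h'
  have hcard : ∀ n : ℕ, ((B n).card : ℝ) ≤ M * (((n : ℝ) + 1) * ρ ^ n) := by
    intro n
    have h1 : ((B n).card : ℝ) ≤ ∑ d ∈ Finset.range (n / 2 + 1), ∑ V ∈ Vs (X := X) N,
        (2 * c * q ^ d) * (2 * c * q ^ (N + 1) * ρ ^ (n - 2 * d)) := by
      have h0 : (B n).card ≤ ∑ d ∈ Finset.range (n / 2 + 1), ∑ V ∈ Vs (X := X) N,
          (((RR (X := X) d) ×ˢ (AA V (n - 2 * d))).image cj).card :=
        Finset.card_biUnion_le.trans (Finset.sum_le_sum fun d _ => Finset.card_biUnion_le)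
      have h0' : ((B n).card : ℝ) ≤ ∑ d ∈ Finset.range (n / 2 + 1), ∑ V ∈ Vs (X := X) N,
          (((((RR (X := X) d) ×ˢ (AA V (n - 2 * d))).image cj).card : ℕ) : ℝ) := by
        exact_mod_cast h0
      refine h0'.trans (Finset.sum_le_sum fun d _ => Finset.sum_le_sum fun V hVm => ?_)
      have hV : IsReduced V ∧ V.length = N := (mem_Vs.1 hVm).2
      have h3 := Finset.card_image_le (s := (RR (X := X) d) ×ˢ (AA V (n - 2 * d))) (f := cj)
      rw [Finset.card_product] at h3
      have h4 : ((((RR (X := X) d) ×ˢ (AA V (n - 2 * d))).image cj).card : ℝ) ≤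
            ((RR (X := X) d).card : ℝ) * ((AA V (n - 2 * d)).card : ℝ) := by exact_mod_cast h3
      refine h4.trans (mul_le_mul (hRRc d) ?_ (Nat.cast_nonneg _) (by positivity))
      exact card_AA3 h2 N ρ hρ1 hρ V hV.1 hV.2 _
    refine h1.trans ?_
    have h5 : ∀ d ∈ Finset.range (n / 2 + 1), ∑ V ∈ Vs (X := X) N,
        (2 * c * q ^ d) * (2 * c * q ^ (N + 1) * ρ ^ (n - 2 * d)) ≤ M * ρ ^ n := by
      intro d hd
      have hd' : 2 * d ≤ n := by have := Finset.mem_range.1 hd; omega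
      rw [Finset.sum_const, nsmul_eq_mul]
      have h6 : q ^ d * ρ ^ (n - 2 * d) ≤ ρ ^ n := by
        calc q ^ d * ρ ^ (n - 2 * d) ≤ (ρ ^ 2) ^ d * ρ ^ (n - 2 * d) :=
              mul_le_mul_of_nonneg_right (pow_le_pow_left₀ (by linarith) hqρ d) (by positivity)
          _ = ρ ^ n := by rw [← pow_mul, ← pow_add]; congr 1; omega
      have h7 : ((Vs (X := X) N).card : ℝ) ≤ 2 * c * q ^ N := by
        refine le_trans ?_ (hRRc N)
        exact_mod_cast card_Vs N
      calc ((Vs (X := X) N).card : ℝ) * ((2 * c * q ^ d) * (2 * c * q ^ (N + 1) * ρ ^ (n - 2 * d)))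
          ≤ (2 * c * q ^ N) * ((2 * c * q ^ d) * (2 * c * q ^ (N + 1) * ρ ^ (n - 2 * d))) :=
            mul_le_mul_of_nonneg_right h7 (by positivity)
        _ = M * (q ^ d * ρ ^ (n - 2 * d)) := by rw [hM]; ring
        _ ≤ M * ρ ^ n := mul_le_mul_of_nonneg_left h6 hM0
    refine (Finset.sum_le_sum h5).trans ?_
    rw [Finset.sum_const, Finset.card_range, nsmul_eq_mul]
    have h7 : ((n / 2 + 1 : ℕ) : ℝ) ≤ (n : ℝ) + 1 := by
      have : n / 2 + 1 ≤ n + 1 := by omega
      exact_mod_cast this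
    calc ((n / 2 + 1 : ℕ) : ℝ) * (M * ρ ^ n) ≤ ((n : ℝ) + 1) * (M * ρ ^ n) :=
          mul_le_mul_of_nonneg_right h7 (by positivity)
      _ = _ := by ring
  -- absorb the linear factor
  set ρ2 : ℝ := (ρ + q) / 2 with hρ2
  have hρ2a : ρ < ρ2 := by rw [hρ2]; linarith
  have hρ2b : ρ2 < q := by rw [hρ2]; linarith
  have hρ2pos : 0 < ρ2 := by linarith
  set t : ℝ := ρ / ρ2 with ht
  have ht0 : 0 ≤ t := div_nonneg hρ0 hρ2pos.le
  have ht1 : t < 1 := (div_lt_one hρ2pos).2 hρ2a
  have hlim : Filter.Tendsto (fun n : ℕ => ((n : ℝ) + 1) * t ^ n) Filter.atTop (nhds 0) := by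
    have ha := tendsto_self_mul_const_pow_of_lt_one ht0 ht1
    have hb := tendsto_pow_atTop_nhds_zero_of_lt_one ht0 ht1
    have := ha.add hb
    simp only [add_zero] at this
    refine this.congr fun n => by ring
  obtain ⟨A, hA⟩ := hlim.bddAbove_range
  refine ⟨M * A, ρ2, hρ2pos, hρ2b, fun n => ⟨(Finset.finite_toSet _).subset (hsub n), ?_⟩⟩
  have h8 : (({u : FreeGroup X | u.norm = n ∧ ∃ v : List (X × Bool), IsReduced v ∧ v.length = N ∧
        ¬ v <:+: reduceCyclically u.toWord}.ncard : ℕ) : ℝ) ≤ ((B n).card : ℝ) := by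
    have := Set.ncard_le_ncard (hsub n) (Finset.finite_toSet _)
    rw [Set.ncard_coe_finset] at this
    exact_mod_cast this
  refine h8.trans ((hcard n).trans ?_)
  have h9 : ((n : ℝ) + 1) * t ^ n ≤ A := hA ⟨n, rfl⟩
  have h10 : ((n : ℝ) + 1) * ρ ^ n = (((n : ℝ) + 1) * t ^ n) * ρ2 ^ n := by
    rw [ht, div_pow]
    field_simp
  rw [h10]
  calc M * ((((n : ℝ) + 1) * t ^ n) * ρ2 ^ n) ≤ M * (A * ρ2 ^ n) :=
        mul_le_mul_of_nonneg_left (mul_le_mul_of_nonneg_right h9 (by positivity)) hM0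
    _ = M * A * ρ2 ^ n := by ring

end H307AO
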